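import Pool.Agent.helper14.NS.Q150h.All
import Pool.Agent.helper14.NS.BaseP
import Pool.Agent.helper14.NS.Q150h.Top

/-!
Generated: the piece Q150h, `150 ≤ e ≤ 200`, `59 / 8 ≤ e κ / 2`.
-/

namespace Pool.Agent.helper14.NS.Q150h

open Pool.Agent.helper31.EQ.R
open Pool.Agent.helper12.RS
open Pool.Agent.helper63.NF hiding TD
open Pool.Agent.helper4.NS
open Pool.Agent.helper14.NR
open Pool.Agent.helper71.FG (Ag)
open Pool.Agent.helper14.NS

theorem piece {e κ : ℝ} (h1 : (150 : ℝ) ≤ e) (h2 : e ≤ 200) (hκ : 0 < κ)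
    (hb1 : 59 / 8 ≤ e * κ / 2)
    (hd : 2 * (Real.cosh κ - 1) / Real.cosh (e * κ / 2) ^ (2 / e) < 4 ^ (1 / e) - 1)
    (far : FarX e κ (e / (4 + e * Real.sinh κ))) : Nonempty (RDataF e κ) :=
  pieceH_m certs (by decide +kernel) (by decide +kernel) (m2 := 94518142692229120) (m1 := -1836253137862656) (m0 := 8251702771712)
    (b1 := 8108898254848) rfl ⟨rfl, by norm_num⟩ rfl (by linarith) hκ
    (inB_e (by norm_num) h1 h2 (by norm_num) (by norm_num))
    (le_trans (by norm_num) hb1) (top h1 h2 hd) far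

end Pool.Agent.helper14.NS.Q150h
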