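import Pool.Agent.helper14.NS.Q150h.PN4

/-!
Generated: certificates.
-/

namespace Pool.Agent.helper14.NS.Q150h

open Pool.Agent.helper31.IA (Z)
open Pool.Agent.helper31.IX (Op XOps runX Cov CovD cov_split covD_split)
open Pool.Agent.helper31.IC (TD)
open Pool.Agent.helper63.RG (reloc)
open Pool.Agent.helper63.NF hiding TD
open Pool.Agent.helper4.NS
open Pool.Agent.helper14.CF (xE covD_E)
open Pool.Agent.helper14.NR (share)

mutual
theorem A4_c0_t3 : CovD 1 gA4 [(5955387392, 458752000), (274877906944, 274877906944), (2199023255552, 2199023255552)] :=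
  covD_E kA4_eq (.n 1 (.n 0 (.n 2 (.n 2 (.l 0) (.l 0)) (.n 2 (.l 0) (.l 0))) (.n 2 (.n 2 (.l 0) (.l 0)) (.n 2 (.l 0) (.l 0)))) (.n 2 (.n 2 (.l 0) (.l 0)) (.n 2 (.l 0) (.n 0 (.l 0) (.l 0)))))
    [(5955387392, 458752000), (274877906944, 274877906944), (2199023255552, 2199023255552)] rfl (by decide +kernel)
theorem A4_c0_t6 : CovD 1 gA4 [(5726011392, 229376000), (274877906944, 274877906944), (5497558138880, 1099511627776)] :=
  covD_E kA4_eq (.n 2 (.n 1 (.l 0) (.l 0)) (.n 2 (.l 0) (.n 1 (.n 0 (.n 0 (.n 2 (.l 0) (.l 1)) (.n 2 (.l 0) (.l 1))) (.n 1 (.n 2 (.l 0) (.l 1)) (.l 0))) (.l 0))))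
    [(5726011392, 229376000), (274877906944, 274877906944), (5497558138880, 1099511627776)] rfl (by decide +kernel)
end

mutual
theorem A4_c0_t7 : CovD 1 gA4 [(5726011392, 229376000), (274877906944, 274877906944), (7696581394432, 1099511627776)] :=
  covD_E kA4_eq (.n 2 (.n 2 (.n 1 (.n 0 (.l 1) (.l 1)) (.n 2 (.n 1 (.n 0 (.l 1) (.l 1)) (.l 0)) (.l 1))) (.l 1)) (.l 1))
    [(5726011392, 229376000), (274877906944, 274877906944), (7696581394432, 1099511627776)] rfl (by decide +kernel)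
theorem A4_c0_t8 : CovD 1 gA4 [(6184763392, 229376000), (274877906944, 274877906944), (6597069766656, 2199023255552)] :=
  covD_E kA4_eq (.n 2 (.n 0 (.n 2 (.l 0) (.n 2 (.l 0) (.l 0))) (.n 2 (.l 0) (.l 0))) (.n 2 (.n 0 (.n 2 (.n 2 (.n 1 (.l 1) (.l 0)) (.l 1)) (.l 1)) (.n 2 (.n 2 (.l 0) (.n 0 (.l 1) (.n 1 (.l 1) (.l 1)))) (.l 1))) (.l 1)))
    [(6184763392, 229376000), (274877906944, 274877906944), (6597069766656, 2199023255552)] rfl (by decide +kernel)
end

mutual
theorem A4_c0_t10 : CovD 1 gA4 [(5955387392, 458752000), (824633720832, 274877906944), (2199023255552, 2199023255552)] :=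
  covD_E kA4_eq (.n 1 (.n 2 (.n 2 (.l 0) (.l 0)) (.n 2 (.l 0) (.l 0))) (.n 2 (.n 2 (.l 0) (.l 0)) (.n 2 (.l 0) (.l 0))))
    [(5955387392, 458752000), (824633720832, 274877906944), (2199023255552, 2199023255552)] rfl (by decide +kernel)
theorem A4_c0_t12 : CovD 1 gA4 [(5955387392, 458752000), (824633720832, 274877906944), (5497558138880, 1099511627776)] :=
  covD_E kA4_eq (.n 1 (.n 2 (.l 0) (.l 0)) (.n 2 (.l 0) (.l 0)))
    [(5955387392, 458752000), (824633720832, 274877906944), (5497558138880, 1099511627776)] rfl (by decide +kernel)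
end

mutual
theorem A4_c0_t13 : CovD 1 gA4 [(5955387392, 458752000), (824633720832, 274877906944), (7696581394432, 1099511627776)] :=
  covD_E kA4_eq (.n 2 (.n 0 (.n 2 (.n 0 (.n 0 (.l 0) (.l 0)) (.l 0)) (.n 2 (.n 1 (.l 1) (.l 0)) (.n 0 (.l 1) (.l 1)))) (.n 2 (.l 0) (.n 0 (.n 2 (.l 0) (.l 1)) (.n 2 (.l 0) (.l 1))))) (.n 2 (.n 0 (.l 1) (.l 1)) (.l 1)))
    [(5955387392, 458752000), (824633720832, 274877906944), (7696581394432, 1099511627776)] rfl (by decide +kernel)
theorem A4_c0_t15 : CovD 1 gA4 [(6872891392, 458752000), (549755813888, 549755813888), (2199023255552, 2199023255552)] :=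
  covD_E kA4_eq (.n 1 (.n 2 (.n 2 (.l 0) (.n 0 (.l 0) (.l 0))) (.n 0 (.n 2 (.l 0) (.l 0)) (.n 2 (.l 0) (.l 0)))) (.n 2 (.n 2 (.l 0) (.l 0)) (.n 2 (.l 0) (.l 0))))
    [(6872891392, 458752000), (549755813888, 549755813888), (2199023255552, 2199023255552)] rfl (by decide +kernel)
end

mutual
theorem A4_c0_t17 : CovD 1 gA4 [(6872891392, 458752000), (549755813888, 549755813888), (5497558138880, 1099511627776)] :=
  covD_E kA4_eq (.n 0 (.n 1 (.n 2 (.l 0) (.l 0)) (.n 2 (.l 0) (.l 0))) (.n 2 (.l 0) (.l 0)))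
    [(6872891392, 458752000), (549755813888, 549755813888), (5497558138880, 1099511627776)] rfl (by decide +kernel)
theorem A4_c0_t19 : CovD 1 gA4 [(6872891392, 458752000), (549755813888, 549755813888), (7146825580544, 549755813888)] :=
  covD_E kA4_eq (.n 0 (.n 2 (.n 0 (.n 2 (.l 0) (.l 0)) (.l 0)) (.n 1 (.n 0 (.l 1) (.n 0 (.l 1) (.l 1))) (.n 2 (.l 0) (.n 0 (.l 1) (.l 1))))) (.n 1 (.n 2 (.l 0) (.n 2 (.l 0) (.l 1))) (.l 0)))
    [(6872891392, 458752000), (549755813888, 549755813888), (7146825580544, 549755813888)] rfl (by decide +kernel)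
end

mutual
theorem A4_c0_t20 : CovD 1 gA4 [(6872891392, 458752000), (549755813888, 549755813888), (8246337208320, 549755813888)] :=
  covD_E kA4_eq (.n 1 (.n 0 (.l 1) (.l 1)) (.n 2 (.n 0 (.l 1) (.l 1)) (.l 1)))
    [(6872891392, 458752000), (549755813888, 549755813888), (8246337208320, 549755813888)] rfl (by decide +kernel)
theorem B4_c0_t1 : CovD 1 gB4 [(6414139392, 917504000), (549755813888, 549755813888), (34359738368, 34359738368)] :=
  covD_E kB4_eq (.n 2 (.n 2 (.n 0 (.n 2 (.n 2 (.l 1) (.l 1)) (.n 2 (.l 1) (.l 1))) (.n 2 (.n 2 (.l 1) (.l 1)) (.n 2 (.l 1) (.l 1)))) (.n 2 (.n 2 (.l 1) (.l 1)) (.n 0 (.l 1) (.l 1)))) (.n 2 (.n 2 (.l 1) (.l 1)) (.n 0 (.l 1) (.l 1))))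
    [(6414139392, 917504000), (549755813888, 549755813888), (34359738368, 34359738368)] rfl (by decide +kernel)
end

mutual
theorem B4_c0_t2 : CovD 1 gB4 [(6414139392, 917504000), (549755813888, 549755813888), (103079215104, 34359738368)] :=
  covD_E kB4_eq (.n 2 (.n 2 (.l 1) (.n 0 (.l 1) (.l 1))) (.n 0 (.n 2 (.l 1) (.n 0 (.l 1) (.l 1))) (.n 2 (.l 1) (.l 1))))
    [(6414139392, 917504000), (549755813888, 549755813888), (103079215104, 34359738368)] rfl (by decide +kernel)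
theorem D4_c0_t4 : CovD 1 gD4 [(5726011392, 229376000), (137438953472, 137438953472), (863610339328, 863610339328)] :=
  covD_E kD4_eq (.n 2 (.n 2 (.n 2 (.l 0) (.l 0)) (.n 2 (.l 0) (.l 0))) (.n 2 (.n 2 (.l 0) (.l 0)) (.n 2 (.l 0) (.n 0 (.l 0) (.l 0)))))
    [(5726011392, 229376000), (137438953472, 137438953472), (863610339328, 863610339328)] rfl (by decide +kernel)
end

mutual
theorem D4_c0_t5 : CovD 1 gD4 [(5726011392, 229376000), (412316860416, 137438953472), (863610339328, 863610339328)] :=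
  covD_E kD4_eq (.n 1 (.n 2 (.n 2 (.n 2 (.l 0) (.l 0)) (.n 2 (.l 0) (.l 0))) (.n 2 (.n 2 (.l 0) (.l 0)) (.n 2 (.l 0) (.l 0)))) (.n 2 (.n 2 (.n 2 (.l 0) (.l 0)) (.n 2 (.l 0) (.l 0))) (.n 2 (.n 2 (.l 0) (.l 0)) (.n 2 (.l 0) (.l 0)))))
    [(5726011392, 229376000), (412316860416, 137438953472), (863610339328, 863610339328)] rfl (by decide +kernel)
theorem D4_c0_t7 : CovD 1 gD4 [(5726011392, 229376000), (687194767360, 137438953472), (863610339328, 863610339328)] :=
  covD_E kD4_eq (.n 2 (.n 2 (.n 2 (.n 1 (.l 0) (.l 0)) (.n 2 (.l 0) (.l 0))) (.n 2 (.n 2 (.l 0) (.l 0)) (.n 2 (.l 0) (.l 0)))) (.n 2 (.n 2 (.n 2 (.l 0) (.l 0)) (.n 2 (.l 0) (.l 0))) (.n 2 (.n 2 (.l 0) (.l 0)) (.n 2 (.l 0) (.l 0)))))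
    [(5726011392, 229376000), (687194767360, 137438953472), (863610339328, 863610339328)] rfl (by decide +kernel)
end

mutual
theorem D4_c0_t9 : CovD 1 gD4 [(5611323392, 114688000), (962072674304, 137438953472), (863610339328, 863610339328)] :=
  covD_E kD4_eq (.n 1 (.n 2 (.n 2 (.n 2 (.l 0) (.l 0)) (.n 2 (.l 0) (.l 0))) (.n 2 (.n 2 (.l 0) (.l 0)) (.n 2 (.l 0) (.l 0)))) (.n 2 (.n 2 (.n 2 (.l 0) (.l 0)) (.n 2 (.l 0) (.l 0))) (.n 2 (.n 2 (.l 0) (.l 0)) (.n 2 (.l 0) (.l 0)))))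
    [(5611323392, 114688000), (962072674304, 137438953472), (863610339328, 863610339328)] rfl (by decide +kernel)
theorem D4_c0_t10 : CovD 1 gD4 [(5840699392, 114688000), (962072674304, 137438953472), (863610339328, 863610339328)] :=
  covD_E kD4_eq (.n 2 (.n 2 (.n 2 (.l 0) (.n 0 (.l 0) (.l 0))) (.n 0 (.n 2 (.l 0) (.l 0)) (.n 2 (.l 0) (.l 0)))) (.n 1 (.n 2 (.n 2 (.l 0) (.l 0)) (.n 2 (.l 0) (.l 0))) (.n 2 (.n 2 (.l 0) (.l 0)) (.n 2 (.l 0) (.l 0)))))
    [(5840699392, 114688000), (962072674304, 137438953472), (863610339328, 863610339328)] rfl (by decide +kernel)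
end

mutual
theorem D4_c0_t12 : CovD 1 gD4 [(6184763392, 229376000), (274877906944, 274877906944), (863610339328, 863610339328)] :=
  covD_E kD4_eq (.n 2 (.n 1 (.n 2 (.n 2 (.l 0) (.l 0)) (.n 2 (.l 0) (.l 0))) (.n 2 (.n 2 (.l 0) (.l 0)) (.n 2 (.l 0) (.l 0)))) (.n 2 (.n 1 (.n 2 (.l 0) (.l 0)) (.n 2 (.l 0) (.l 0))) (.n 2 (.n 1 (.l 0) (.l 0)) (.n 2 (.l 0) (.l 0)))))
    [(6184763392, 229376000), (274877906944, 274877906944), (863610339328, 863610339328)] rfl (by decide +kernel)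
theorem D4_c0_t14 : CovD 1 gD4 [(6184763392, 229376000), (687194767360, 137438953472), (863610339328, 863610339328)] :=
  covD_E kD4_eq (.n 0 (.n 2 (.n 2 (.n 2 (.l 0) (.l 0)) (.n 2 (.l 0) (.l 0))) (.n 2 (.n 2 (.l 0) (.l 0)) (.n 2 (.l 0) (.l 0)))) (.n 2 (.n 2 (.n 2 (.l 0) (.l 0)) (.n 2 (.l 0) (.l 0))) (.n 2 (.n 2 (.l 0) (.l 0)) (.n 2 (.l 0) (.l 0)))))
    [(6184763392, 229376000), (687194767360, 137438953472), (863610339328, 863610339328)] rfl (by decide +kernel)
end

mutual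
theorem D4_c0_t15 : CovD 1 gD4 [(6184763392, 229376000), (962072674304, 137438953472), (863610339328, 863610339328)] :=
  covD_E kD4_eq (.n 2 (.n 0 (.n 2 (.n 2 (.l 0) (.l 0)) (.n 2 (.l 0) (.l 0))) (.n 2 (.n 2 (.l 0) (.l 0)) (.n 2 (.l 0) (.l 0)))) (.n 2 (.n 0 (.n 2 (.l 0) (.l 0)) (.n 2 (.l 0) (.l 0))) (.n 2 (.n 0 (.l 0) (.l 0)) (.n 2 (.l 0) (.l 0)))))
    [(6184763392, 229376000), (962072674304, 137438953472), (863610339328, 863610339328)] rfl (by decide +kernel)
theorem D4_c0_t17 : CovD 1 gD4 [(6872891392, 458752000), (274877906944, 274877906944), (863610339328, 863610339328)] :=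
  covD_E kD4_eq (.n 2 (.n 2 (.n 0 (.n 2 (.l 0) (.l 0)) (.n 2 (.l 0) (.l 0))) (.n 2 (.n 0 (.l 0) (.l 0)) (.n 2 (.l 0) (.l 0)))) (.n 2 (.n 2 (.n 2 (.l 0) (.l 0)) (.n 2 (.l 0) (.l 0))) (.n 2 (.n 2 (.l 0) (.l 0)) (.n 2 (.l 0) (.l 0)))))
    [(6872891392, 458752000), (274877906944, 274877906944), (863610339328, 863610339328)] rfl (by decide +kernel)
end

mutual
theorem D4_c0_t19 : CovD 1 gD4 [(6643515392, 229376000), (824633720832, 274877906944), (863610339328, 863610339328)] :=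
  covD_E kD4_eq (.n 2 (.n 2 (.n 1 (.n 2 (.l 0) (.l 0)) (.n 2 (.l 0) (.l 0))) (.n 2 (.n 2 (.l 0) (.l 0)) (.n 2 (.l 0) (.l 0)))) (.n 2 (.n 2 (.n 2 (.l 0) (.l 0)) (.n 2 (.l 0) (.l 0))) (.n 2 (.n 2 (.l 0) (.l 0)) (.n 2 (.l 0) (.l 0)))))
    [(6643515392, 229376000), (824633720832, 274877906944), (863610339328, 863610339328)] rfl (by decide +kernel)
theorem D4_c0_t20 : CovD 1 gD4 [(7102267392, 229376000), (824633720832, 274877906944), (863610339328, 863610339328)] :=
  covD_E kD4_eq (.n 2 (.n 2 (.n 2 (.l 0) (.l 0)) (.n 2 (.l 0) (.l 0))) (.n 2 (.n 2 (.l 0) (.l 0)) (.n 2 (.l 0) (.n 0 (.l 0) (.l 0)))))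
    [(7102267392, 229376000), (824633720832, 274877906944), (863610339328, 863610339328)] rfl (by decide +kernel)
end

mutual
theorem E4_c0_t4 : CovD 1 gE4 [(5955387392, 458752000), (549755813888, 549755813888), (107951292416, 107951292416)] :=
  covD_E kE4_eq (.n 2 (.n 2 (.n 2 (.l 1) (.l 1)) (.n 2 (.l 1) (.l 1))) (.n 1 (.n 2 (.l 1) (.n 2 (.n 0 (.l 0) (.l 1)) (.l 0))) (.n 2 (.l 1) (.n 0 (.n 2 (.l 1) (.l 0)) (.l 1)))))
    [(5955387392, 458752000), (549755813888, 549755813888), (107951292416, 107951292416)] rfl (by decide +kernel)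
theorem E4_c0_t5 : CovD 1 gE4 [(5955387392, 458752000), (549755813888, 549755813888), (323853877248, 107951292416)] :=
  covD_E kE4_eq (.n 1 (.n 2 (.n 2 (.n 2 (.l 0) (.l 0)) (.n 0 (.l 0) (.l 0))) (.n 0 (.n 2 (.l 0) (.l 0)) (.n 2 (.l 0) (.l 0)))) (.n 1 (.n 2 (.n 2 (.l 0) (.l 0)) (.n 2 (.l 0) (.l 0))) (.n 2 (.n 2 (.l 0) (.l 0)) (.n 2 (.l 0) (.l 0)))))
    [(5955387392, 458752000), (549755813888, 549755813888), (323853877248, 107951292416)] rfl (by decide +kernel)
end

mutual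
theorem E4_c0_t7 : CovD 1 gE4 [(5955387392, 458752000), (274877906944, 274877906944), (647707754496, 215902584832)] :=
  covD_E kE4_eq (.n 1 (.n 2 (.n 2 (.n 2 (.l 0) (.l 0)) (.l 0)) (.n 2 (.l 0) (.l 0))) (.n 2 (.n 0 (.n 2 (.l 0) (.l 0)) (.n 2 (.l 0) (.l 0))) (.n 2 (.l 0) (.l 0))))
    [(5955387392, 458752000), (274877906944, 274877906944), (647707754496, 215902584832)] rfl (by decide +kernel)
theorem E4_c0_t9 : CovD 1 gE4 [(5955387392, 458752000), (687194767360, 137438953472), (647707754496, 215902584832)] :=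
  covD_E kE4_eq (.n 2 (.n 2 (.n 2 (.l 0) (.l 0)) (.n 0 (.l 0) (.l 0))) (.n 0 (.n 2 (.l 0) (.l 0)) (.n 2 (.l 0) (.l 0))))
    [(5955387392, 458752000), (687194767360, 137438953472), (647707754496, 215902584832)] rfl (by decide +kernel)
end

mutual
theorem E4_c0_t10 : CovD 1 gE4 [(5955387392, 458752000), (962072674304, 137438953472), (647707754496, 215902584832)] :=
  covD_E kE4_eq (.n 2 (.n 2 (.n 2 (.l 0) (.l 0)) (.n 0 (.n 0 (.l 0) (.l 0)) (.l 0))) (.n 0 (.n 0 (.n 2 (.l 0) (.l 0)) (.n 2 (.l 0) (.l 0))) (.n 2 (.l 0) (.l 0))))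
    [(5955387392, 458752000), (962072674304, 137438953472), (647707754496, 215902584832)] rfl (by decide +kernel)
theorem E4_c0_t13 : CovD 1 gE4 [(5955387392, 458752000), (137438953472, 137438953472), (1295415508992, 431805169664)] :=
  covD_E kE4_eq (.n 2 (.n 2 (.n 2 (.l 0) (.l 0)) (.n 2 (.l 0) (.l 0))) (.n 2 (.n 2 (.l 0) (.l 0)) (.n 2 (.l 0) (.l 0))))
    [(5955387392, 458752000), (137438953472, 137438953472), (1295415508992, 431805169664)] rfl (by decide +kernel)
end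

mutual
theorem E4_c0_t14 : CovD 1 gE4 [(5955387392, 458752000), (412316860416, 137438953472), (1295415508992, 431805169664)] :=
  covD_E kE4_eq (.n 2 (.n 2 (.n 2 (.l 0) (.l 0)) (.n 2 (.l 0) (.l 0))) (.n 2 (.n 2 (.l 0) (.n 0 (.l 0) (.l 0))) (.n 0 (.n 2 (.l 0) (.l 0)) (.n 0 (.l 0) (.l 0)))))
    [(5955387392, 458752000), (412316860416, 137438953472), (1295415508992, 431805169664)] rfl (by decide +kernel)
theorem E4_c0_t17 : CovD 1 gE4 [(5726011392, 229376000), (687194767360, 137438953472), (1295415508992, 431805169664)] :=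
  covD_E kE4_eq (.n 2 (.n 2 (.n 2 (.l 0) (.l 0)) (.n 2 (.l 0) (.l 0))) (.n 2 (.n 2 (.l 0) (.l 0)) (.n 2 (.l 0) (.l 0))))
    [(5726011392, 229376000), (687194767360, 137438953472), (1295415508992, 431805169664)] rfl (by decide +kernel)
end

mutual
theorem E4_c0_t18 : CovD 1 gE4 [(5726011392, 229376000), (962072674304, 137438953472), (1295415508992, 431805169664)] :=
  covD_E kE4_eq (.n 0 (.n 2 (.n 2 (.n 2 (.l 0) (.l 0)) (.n 2 (.l 0) (.l 0))) (.n 2 (.n 2 (.l 0) (.l 0)) (.n 2 (.l 0) (.l 0)))) (.n 2 (.n 2 (.n 2 (.l 0) (.l 0)) (.n 2 (.l 0) (.l 0))) (.n 2 (.n 2 (.l 0) (.l 0)) (.n 2 (.l 0) (.l 0)))))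
    [(5726011392, 229376000), (962072674304, 137438953472), (1295415508992, 431805169664)] rfl (by decide +kernel)
theorem E4_c0_t19 : CovD 1 gE4 [(6184763392, 229376000), (824633720832, 274877906944), (1295415508992, 431805169664)] :=
  covD_E kE4_eq (.n 1 (.n 2 (.n 2 (.n 2 (.l 0) (.l 0)) (.n 2 (.l 0) (.l 0))) (.n 2 (.n 2 (.l 0) (.l 0)) (.n 2 (.l 0) (.l 0)))) (.n 2 (.n 2 (.n 2 (.l 0) (.l 0)) (.n 2 (.l 0) (.l 0))) (.n 2 (.n 2 (.l 0) (.l 0)) (.n 2 (.l 0) (.l 0)))))
    [(6184763392, 229376000), (824633720832, 274877906944), (1295415508992, 431805169664)] rfl (by decide +kernel)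
end

mutual
theorem E4_c0_t22 : CovD 1 gE4 [(6872891392, 458752000), (549755813888, 549755813888), (215902584832, 215902584832)] :=
  covD_E kE4_eq (.n 2 (.n 2 (.n 2 (.n 2 (.l 1) (.l 1)) (.l 1)) (.n 2 (.l 1) (.l 1))) (.n 1 (.n 2 (.n 2 (.l 0) (.l 0)) (.n 2 (.l 0) (.l 0))) (.n 2 (.n 2 (.n 2 (.l 1) (.l 0)) (.l 0)) (.n 2 (.l 0) (.l 0)))))
    [(6872891392, 458752000), (549755813888, 549755813888), (215902584832, 215902584832)] rfl (by decide +kernel)
theorem E4_c0_t23 : CovD 1 gE4 [(6872891392, 458752000), (549755813888, 549755813888), (647707754496, 215902584832)] :=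
  covD_E kE4_eq (.n 1 (.n 2 (.n 2 (.n 0 (.l 0) (.l 0)) (.l 0)) (.n 2 (.l 0) (.l 0))) (.n 2 (.n 2 (.n 2 (.l 0) (.l 0)) (.n 0 (.l 0) (.l 0))) (.n 0 (.n 2 (.l 0) (.l 0)) (.n 2 (.l 0) (.l 0)))))
    [(6872891392, 458752000), (549755813888, 549755813888), (647707754496, 215902584832)] rfl (by decide +kernel)
end

mutual
theorem E4_c0_t25 : CovD 1 gE4 [(6643515392, 229376000), (549755813888, 549755813888), (1295415508992, 431805169664)] :=
  covD_E kE4_eq (.n 1 (.n 2 (.n 2 (.n 2 (.l 0) (.l 0)) (.n 1 (.l 0) (.l 0))) (.n 1 (.n 2 (.l 0) (.l 0)) (.n 2 (.l 0) (.l 0)))) (.n 2 (.n 2 (.n 2 (.l 0) (.l 0)) (.n 2 (.l 0) (.l 0))) (.n 2 (.n 2 (.l 0) (.l 0)) (.n 2 (.l 0) (.l 0)))))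
    [(6643515392, 229376000), (549755813888, 549755813888), (1295415508992, 431805169664)] rfl (by decide +kernel)
theorem E4_c0_t26 : CovD 1 gE4 [(7102267392, 229376000), (549755813888, 549755813888), (1295415508992, 431805169664)] :=
  covD_E kE4_eq (.n 2 (.n 2 (.n 2 (.l 0) (.l 0)) (.n 2 (.l 0) (.l 0))) (.n 2 (.n 2 (.l 0) (.l 0)) (.n 2 (.l 0) (.l 0))))
    [(7102267392, 229376000), (549755813888, 549755813888), (1295415508992, 431805169664)] rfl (by decide +kernel)
end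

theorem A4_c0_t5 : CovD 1 gA4 [(5726011392, 229376000), (274877906944, 274877906944), (6597069766656, 2199023255552)] :=
  covD_split 2 (by decide +kernel) A4_c0_t6 A4_c0_t7

theorem A4_c0_t4 : CovD 1 gA4 [(5955387392, 458752000), (274877906944, 274877906944), (6597069766656, 2199023255552)] :=
  covD_split 0 (by decide +kernel) A4_c0_t5 A4_c0_t8

theorem A4_c0_t2 : CovD 1 gA4 [(5955387392, 458752000), (274877906944, 274877906944), (4398046511104, 4398046511104)] :=
  covD_split 2 (by decide +kernel) A4_c0_t3 A4_c0_t4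

theorem A4_c0_t11 : CovD 1 gA4 [(5955387392, 458752000), (824633720832, 274877906944), (6597069766656, 2199023255552)] :=
  covD_split 2 (by decide +kernel) A4_c0_t12 A4_c0_t13

theorem A4_c0_t9 : CovD 1 gA4 [(5955387392, 458752000), (824633720832, 274877906944), (4398046511104, 4398046511104)] :=
  covD_split 2 (by decide +kernel) A4_c0_t10 A4_c0_t11

theorem A4_c0_t1 : CovD 1 gA4 [(5955387392, 458752000), (549755813888, 549755813888), (4398046511104, 4398046511104)] :=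
  covD_split 1 (by decide +kernel) A4_c0_t2 A4_c0_t9

theorem A4_c0_t18 : CovD 1 gA4 [(6872891392, 458752000), (549755813888, 549755813888), (7696581394432, 1099511627776)] :=
  covD_split 2 (by decide +kernel) A4_c0_t19 A4_c0_t20

theorem A4_c0_t16 : CovD 1 gA4 [(6872891392, 458752000), (549755813888, 549755813888), (6597069766656, 2199023255552)] :=
  covD_split 2 (by decide +kernel) A4_c0_t17 A4_c0_t18

theorem A4_c0_t14 : CovD 1 gA4 [(6872891392, 458752000), (549755813888, 549755813888), (4398046511104, 4398046511104)] :=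
  covD_split 2 (by decide +kernel) A4_c0_t15 A4_c0_t16

theorem A4_c0 : CovD 1 gA4 [(6414139392, 917504000), (549755813888, 549755813888), (4398046511104, 4398046511104)] :=
  covD_split 0 (by decide +kernel) A4_c0_t1 A4_c0_t14

theorem B4_c0 : CovD 1 gB4 [(6414139392, 917504000), (549755813888, 549755813888), (68719476736, 68719476736)] :=
  covD_split 2 (by decide +kernel) B4_c0_t1 B4_c0_t2

theorem D4_c0_t3 : CovD 1 gD4 [(5726011392, 229376000), (274877906944, 274877906944), (863610339328, 863610339328)] :=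
  covD_split 1 (by decide +kernel) D4_c0_t4 D4_c0_t5

theorem D4_c0_t8 : CovD 1 gD4 [(5726011392, 229376000), (962072674304, 137438953472), (863610339328, 863610339328)] :=
  covD_split 0 (by decide +kernel) D4_c0_t9 D4_c0_t10

theorem D4_c0_t6 : CovD 1 gD4 [(5726011392, 229376000), (824633720832, 274877906944), (863610339328, 863610339328)] :=
  covD_split 1 (by decide +kernel) D4_c0_t7 D4_c0_t8

theorem D4_c0_t2 : CovD 1 gD4 [(5726011392, 229376000), (549755813888, 549755813888), (863610339328, 863610339328)] :=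
  covD_split 1 (by decide +kernel) D4_c0_t3 D4_c0_t6

theorem D4_c0_t13 : CovD 1 gD4 [(6184763392, 229376000), (824633720832, 274877906944), (863610339328, 863610339328)] :=
  covD_split 1 (by decide +kernel) D4_c0_t14 D4_c0_t15

theorem D4_c0_t11 : CovD 1 gD4 [(6184763392, 229376000), (549755813888, 549755813888), (863610339328, 863610339328)] :=
  covD_split 1 (by decide +kernel) D4_c0_t12 D4_c0_t13

theorem D4_c0_t1 : CovD 1 gD4 [(5955387392, 458752000), (549755813888, 549755813888), (863610339328, 863610339328)] :=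
  covD_split 0 (by decide +kernel) D4_c0_t2 D4_c0_t11

theorem D4_c0_t18 : CovD 1 gD4 [(6872891392, 458752000), (824633720832, 274877906944), (863610339328, 863610339328)] :=
  covD_split 0 (by decide +kernel) D4_c0_t19 D4_c0_t20

theorem D4_c0_t16 : CovD 1 gD4 [(6872891392, 458752000), (549755813888, 549755813888), (863610339328, 863610339328)] :=
  covD_split 1 (by decide +kernel) D4_c0_t17 D4_c0_t18

theorem D4_c0 : CovD 1 gD4 [(6414139392, 917504000), (549755813888, 549755813888), (863610339328, 863610339328)] :=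
  covD_split 0 (by decide +kernel) D4_c0_t1 D4_c0_t16

theorem E4_c0_t3 : CovD 1 gE4 [(5955387392, 458752000), (549755813888, 549755813888), (215902584832, 215902584832)] :=
  covD_split 2 (by decide +kernel) E4_c0_t4 E4_c0_t5

theorem E4_c0_t8 : CovD 1 gE4 [(5955387392, 458752000), (824633720832, 274877906944), (647707754496, 215902584832)] :=
  covD_split 1 (by decide +kernel) E4_c0_t9 E4_c0_t10

theorem E4_c0_t6 : CovD 1 gE4 [(5955387392, 458752000), (549755813888, 549755813888), (647707754496, 215902584832)] :=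
  covD_split 1 (by decide +kernel) E4_c0_t7 E4_c0_t8

theorem E4_c0_t2 : CovD 1 gE4 [(5955387392, 458752000), (549755813888, 549755813888), (431805169664, 431805169664)] :=
  covD_split 2 (by decide +kernel) E4_c0_t3 E4_c0_t6

theorem E4_c0_t12 : CovD 1 gE4 [(5955387392, 458752000), (274877906944, 274877906944), (1295415508992, 431805169664)] :=
  covD_split 1 (by decide +kernel) E4_c0_t13 E4_c0_t14

theorem E4_c0_t16 : CovD 1 gE4 [(5726011392, 229376000), (824633720832, 274877906944), (1295415508992, 431805169664)] :=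
  covD_split 1 (by decide +kernel) E4_c0_t17 E4_c0_t18

theorem E4_c0_t15 : CovD 1 gE4 [(5955387392, 458752000), (824633720832, 274877906944), (1295415508992, 431805169664)] :=
  covD_split 0 (by decide +kernel) E4_c0_t16 E4_c0_t19

theorem E4_c0_t11 : CovD 1 gE4 [(5955387392, 458752000), (549755813888, 549755813888), (1295415508992, 431805169664)] :=
  covD_split 1 (by decide +kernel) E4_c0_t12 E4_c0_t15

theorem E4_c0_t1 : CovD 1 gE4 [(5955387392, 458752000), (549755813888, 549755813888), (863610339328, 863610339328)] :=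
  covD_split 2 (by decide +kernel) E4_c0_t2 E4_c0_t11

theorem E4_c0_t21 : CovD 1 gE4 [(6872891392, 458752000), (549755813888, 549755813888), (431805169664, 431805169664)] :=
  covD_split 2 (by decide +kernel) E4_c0_t22 E4_c0_t23

theorem E4_c0_t24 : CovD 1 gE4 [(6872891392, 458752000), (549755813888, 549755813888), (1295415508992, 431805169664)] :=
  covD_split 0 (by decide +kernel) E4_c0_t25 E4_c0_t26

theorem E4_c0_t20 : CovD 1 gE4 [(6872891392, 458752000), (549755813888, 549755813888), (863610339328, 863610339328)] :=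
  covD_split 2 (by decide +kernel) E4_c0_t21 E4_c0_t24

theorem E4_c0 : CovD 1 gE4 [(6414139392, 917504000), (549755813888, 549755813888), (863610339328, 863610339328)] :=
  covD_split 0 (by decide +kernel) E4_c0_t1 E4_c0_t20

end Pool.Agent.helper14.NS.Q150h
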