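import Pool.Agent.helper14.NS.Q150h.PN6

/-!
Generated: certificates.
-/

namespace Pool.Agent.helper14.NS.Q150h

open Pool.Agent.helper31.IA (Z)
open Pool.Agent.helper31.IX (Op XOps runX Cov CovD cov_split covD_split)
open Pool.Agent.helper31.IC (TD)
open Pool.Agent.helper63.RG (reloc)
open Pool.Agent.helper63.NF hiding TD
open Pool.Agent.helper4.NS
open Pool.Agent.helper14.CF (xE covD_E)
open Pool.Agent.helper14.NR (share)

mutual
theorem A6_c0_t5 : CovD 1 gA6 [(5726011392, 229376000), (137438953472, 137438953472), (2199023255552, 2199023255552)] :=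
  covD_E kA6_eq (.n 2 (.n 2 (.l 0) (.l 0)) (.n 2 (.l 0) (.l 0)))
    [(5726011392, 229376000), (137438953472, 137438953472), (2199023255552, 2199023255552)] rfl (by decide +kernel)
theorem A6_c0_t7 : CovD 1 gA6 [(5726011392, 229376000), (137438953472, 137438953472), (5497558138880, 1099511627776)] :=
  covD_E kA6_eq (.n 2 (.l 0) (.l 0))
    [(5726011392, 229376000), (137438953472, 137438953472), (5497558138880, 1099511627776)] rfl (by decide +kernel)
end

mutual
theorem A6_c0_t9 : CovD 1 gA6 [(5726011392, 229376000), (137438953472, 137438953472), (7146825580544, 549755813888)] :=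
  covD_E kA6_eq (.n 2 (.l 0) (.n 0 (.n 1 (.n 2 (.l 0) (.n 0 (.n 1 (.n 0 (.l 1) (.l 1)) (.l 0)) (.l 0))) (.l 0)) (.l 0)))
    [(5726011392, 229376000), (137438953472, 137438953472), (7146825580544, 549755813888)] rfl (by decide +kernel)
theorem A6_c0_t11 : CovD 1 gA6 [(5611323392, 114688000), (137438953472, 137438953472), (8246337208320, 549755813888)] :=
  covD_E kA6_eq (.n 0 (.n 2 (.n 2 (.n 1 (.l 1) (.n 2 (.l 0) (.l 0))) (.l 1)) (.l 1)) (.n 2 (.n 1 (.n 2 (.n 0 (.l 1) (.n 2 (.l 1) (.l 1))) (.l 1)) (.n 1 (.n 2 (.l 0) (.l 1)) (.l 0))) (.l 1)))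
    [(5611323392, 114688000), (137438953472, 137438953472), (8246337208320, 549755813888)] rfl (by decide +kernel)
end

mutual
theorem A6_c0_t12 : CovD 1 gA6 [(5840699392, 114688000), (137438953472, 137438953472), (8246337208320, 549755813888)] :=
  covD_E kA6_eq (.n 2 (.n 2 (.n 0 (.n 2 (.l 0) (.l 0)) (.l 0)) (.n 1 (.n 0 (.l 1) (.n 0 (.l 1) (.l 0))) (.l 0))) (.n 1 (.l 1) (.n 2 (.n 0 (.l 1) (.l 0)) (.l 1))))
    [(5840699392, 114688000), (137438953472, 137438953472), (8246337208320, 549755813888)] rfl (by decide +kernel)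
theorem A6_c0_t14 : CovD 1 gA6 [(6184763392, 229376000), (137438953472, 137438953472), (2199023255552, 2199023255552)] :=
  covD_E kA6_eq (.n 2 (.n 2 (.l 0) (.l 0)) (.n 2 (.l 0) (.l 0)))
    [(6184763392, 229376000), (137438953472, 137438953472), (2199023255552, 2199023255552)] rfl (by decide +kernel)
end

mutual
theorem A6_c0_t15 : CovD 1 gA6 [(6184763392, 229376000), (137438953472, 137438953472), (6597069766656, 2199023255552)] :=
  covD_E kA6_eq (.n 2 (.n 2 (.l 0) (.l 0)) (.n 2 (.l 0) (.n 0 (.n 2 (.l 0) (.n 0 (.n 2 (.n 1 (.l 1) (.l 0)) (.l 1)) (.n 1 (.n 2 (.l 0) (.l 1)) (.l 0)))) (.n 0 (.n 2 (.l 0) (.l 0)) (.l 0)))))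
    [(6184763392, 229376000), (137438953472, 137438953472), (6597069766656, 2199023255552)] rfl (by decide +kernel)
theorem A6_c0_t17 : CovD 1 gA6 [(5955387392, 458752000), (412316860416, 137438953472), (2199023255552, 2199023255552)] :=
  covD_E kA6_eq (.n 2 (.n 2 (.l 0) (.l 0)) (.n 2 (.l 0) (.n 0 (.l 0) (.l 0))))
    [(5955387392, 458752000), (412316860416, 137438953472), (2199023255552, 2199023255552)] rfl (by decide +kernel)
end

mutual
theorem A6_c0_t19 : CovD 1 gA6 [(5726011392, 229376000), (412316860416, 137438953472), (6597069766656, 2199023255552)] :=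
  covD_E kA6_eq (.n 2 (.n 2 (.l 0) (.l 0)) (.n 2 (.l 0) (.n 0 (.n 2 (.n 0 (.l 0) (.l 0)) (.n 1 (.n 2 (.n 0 (.n 0 (.l 1) (.l 1)) (.l 0)) (.l 1)) (.n 2 (.l 0) (.l 0)))) (.n 1 (.n 2 (.l 0) (.n 0 (.n 2 (.l 0) (.l 1)) (.l 0))) (.l 0)))))
    [(5726011392, 229376000), (412316860416, 137438953472), (6597069766656, 2199023255552)] rfl (by decide +kernel)
theorem A6_c0_t20 : CovD 1 gA6 [(6184763392, 229376000), (412316860416, 137438953472), (6597069766656, 2199023255552)] :=
  covD_E kA6_eq (.n 2 (.n 2 (.l 0) (.l 0)) (.n 2 (.l 0) (.n 2 (.l 0) (.l 0))))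
    [(6184763392, 229376000), (412316860416, 137438953472), (6597069766656, 2199023255552)] rfl (by decide +kernel)
end

mutual
theorem A6_c0_t22 : CovD 1 gA6 [(5955387392, 458752000), (824633720832, 274877906944), (2199023255552, 2199023255552)] :=
  covD_E kA6_eq (.n 2 (.n 1 (.n 2 (.l 0) (.l 0)) (.n 2 (.l 0) (.l 0))) (.n 2 (.n 1 (.l 0) (.l 0)) (.n 0 (.n 1 (.l 0) (.l 0)) (.l 0))))
    [(5955387392, 458752000), (824633720832, 274877906944), (2199023255552, 2199023255552)] rfl (by decide +kernel)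
theorem A6_c0_t23 : CovD 1 gA6 [(5955387392, 458752000), (824633720832, 274877906944), (6597069766656, 2199023255552)] :=
  covD_E kA6_eq (.n 0 (.n 1 (.n 2 (.n 2 (.l 0) (.l 0)) (.n 2 (.l 0) (.l 0))) (.n 2 (.n 2 (.l 0) (.l 0)) (.n 2 (.l 0) (.l 0)))) (.n 2 (.n 2 (.l 0) (.l 0)) (.n 2 (.l 0) (.l 0))))
    [(5955387392, 458752000), (824633720832, 274877906944), (6597069766656, 2199023255552)] rfl (by decide +kernel)
end

mutual
theorem A6_c0_t25 : CovD 1 gA6 [(6872891392, 458752000), (274877906944, 274877906944), (4398046511104, 4398046511104)] :=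
  covD_E kA6_eq (.n 2 (.n 2 (.n 2 (.l 0) (.n 0 (.l 0) (.l 0))) (.n 0 (.n 2 (.l 0) (.l 0)) (.n 2 (.l 0) (.l 0)))) (.n 0 (.n 2 (.n 2 (.l 0) (.l 0)) (.n 2 (.l 0) (.l 0))) (.n 2 (.n 2 (.l 0) (.l 0)) (.n 2 (.l 0) (.l 0)))))
    [(6872891392, 458752000), (274877906944, 274877906944), (4398046511104, 4398046511104)] rfl (by decide +kernel)
theorem A6_c0_t26 : CovD 1 gA6 [(6872891392, 458752000), (824633720832, 274877906944), (4398046511104, 4398046511104)] :=
  covD_E kA6_eq (.n 2 (.n 2 (.n 2 (.l 0) (.l 0)) (.n 2 (.l 0) (.l 0))) (.n 2 (.n 2 (.l 0) (.l 0)) (.n 2 (.l 0) (.l 0))))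
    [(6872891392, 458752000), (824633720832, 274877906944), (4398046511104, 4398046511104)] rfl (by decide +kernel)
end

mutual
theorem B6_c0_t1 : CovD 1 gB6 [(6414139392, 917504000), (549755813888, 549755813888), (34359738368, 34359738368)] :=
  covD_E kB6_eq (.n 2 (.n 2 (.n 2 (.n 2 (.l 1) (.l 1)) (.n 2 (.l 1) (.l 1))) (.n 0 (.n 2 (.l 1) (.l 1)) (.n 2 (.l 1) (.l 1)))) (.n 2 (.n 2 (.l 1) (.l 1)) (.n 0 (.l 1) (.l 1))))
    [(6414139392, 917504000), (549755813888, 549755813888), (34359738368, 34359738368)] rfl (by decide +kernel)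
theorem B6_c0_t4 : CovD 1 gB6 [(5955387392, 458752000), (549755813888, 549755813888), (85899345920, 17179869184)] :=
  covD_E kB6_eq (.n 2 (.n 0 (.l 1) (.l 1)) (.n 2 (.l 1) (.n 0 (.l 1) (.l 1))))
    [(5955387392, 458752000), (549755813888, 549755813888), (85899345920, 17179869184)] rfl (by decide +kernel)
end

mutual
theorem B6_c0_t7 : CovD 1 gB6 [(5726011392, 229376000), (274877906944, 274877906944), (120259084288, 17179869184)] :=
  covD_E kB6_eq (.n 2 (.l 1) (.n 1 (.n 2 (.l 1) (.l 1)) (.n 2 (.l 1) (.n 0 (.n 0 (.l 1) (.n 2 (.l 1) (.l 1))) (.n 2 (.l 1) (.n 1 (.l 1) (.l 0)))))))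
    [(5726011392, 229376000), (274877906944, 274877906944), (120259084288, 17179869184)] rfl (by decide +kernel)
theorem B6_c0_t9 : CovD 1 gB6 [(5726011392, 229376000), (824633720832, 274877906944), (111669149696, 8589934592)] :=
  covD_E kB6_eq (.n 2 (.n 0 (.l 1) (.l 1)) (.n 1 (.n 0 (.l 1) (.l 1)) (.n 2 (.n 0 (.l 1) (.l 1)) (.n 1 (.n 0 (.l 1) (.l 1)) (.l 0)))))
    [(5726011392, 229376000), (824633720832, 274877906944), (111669149696, 8589934592)] rfl (by decide +kernel)
end

mutual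
theorem B6_c0_t10 : CovD 1 gB6 [(5726011392, 229376000), (824633720832, 274877906944), (128849018880, 8589934592)] :=
  covD_E kB6_eq (.n 0 (.n 1 (.n 1 (.n 2 (.l 1) (.n 2 (.n 0 (.l 1) (.l 1)) (.l 0))) (.n 2 (.n 2 (.l 1) (.l 0)) (.l 0))) (.n 2 (.l 0) (.l 0))) (.n 1 (.n 2 (.n 2 (.l 1) (.n 1 (.l 1) (.l 0))) (.l 0)) (.l 0)))
    [(5726011392, 229376000), (824633720832, 274877906944), (128849018880, 8589934592)] rfl (by decide +kernel)
theorem B6_c0_t13 : CovD 1 gB6 [(6184763392, 229376000), (274877906944, 274877906944), (111669149696, 8589934592)] :=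
  covD_E kB6_eq (.n 2 (.l 1) (.l 1))
    [(6184763392, 229376000), (274877906944, 274877906944), (111669149696, 8589934592)] rfl (by decide +kernel)
end

mutual
theorem B6_c0_t15 : CovD 1 gB6 [(6070075392, 114688000), (274877906944, 274877906944), (128849018880, 8589934592)] :=
  covD_E kB6_eq (.n 2 (.n 2 (.l 1) (.l 1)) (.n 1 (.n 0 (.l 1) (.l 1)) (.n 1 (.n 2 (.l 1) (.l 0)) (.l 0))))
    [(6070075392, 114688000), (274877906944, 274877906944), (128849018880, 8589934592)] rfl (by decide +kernel)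
theorem B6_c0_t16 : CovD 1 gB6 [(6299451392, 114688000), (274877906944, 274877906944), (128849018880, 8589934592)] :=
  covD_E kB6_eq (.n 1 (.n 2 (.l 1) (.n 2 (.l 1) (.n 0 (.l 1) (.l 0)))) (.n 2 (.n 0 (.n 2 (.l 1) (.l 1)) (.n 1 (.l 1) (.n 2 (.l 1) (.l 1)))) (.l 0)))
    [(6299451392, 114688000), (274877906944, 274877906944), (128849018880, 8589934592)] rfl (by decide +kernel)
end

mutual
theorem B6_c0_t18 : CovD 1 gB6 [(6184763392, 229376000), (824633720832, 274877906944), (111669149696, 8589934592)] :=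
  covD_E kB6_eq (.n 2 (.n 0 (.l 1) (.l 1)) (.n 2 (.n 0 (.n 0 (.l 1) (.l 1)) (.n 0 (.n 1 (.l 1) (.l 1)) (.n 1 (.l 1) (.l 1)))) (.n 1 (.n 0 (.l 1) (.l 1)) (.l 0))))
    [(6184763392, 229376000), (824633720832, 274877906944), (111669149696, 8589934592)] rfl (by decide +kernel)
theorem B6_c0_t19 : CovD 1 gB6 [(6184763392, 229376000), (824633720832, 274877906944), (128849018880, 8589934592)] :=
  covD_E kB6_eq (.n 1 (.n 2 (.n 2 (.n 1 (.n 0 (.l 1) (.l 1)) (.l 0)) (.l 0)) (.l 0)) (.l 0))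
    [(6184763392, 229376000), (824633720832, 274877906944), (128849018880, 8589934592)] rfl (by decide +kernel)
end

mutual
theorem B6_c0_t21 : CovD 1 gB6 [(6872891392, 458752000), (549755813888, 549755813888), (85899345920, 17179869184)] :=
  covD_E kB6_eq (.n 2 (.l 1) (.n 2 (.l 1) (.n 0 (.l 1) (.l 1))))
    [(6872891392, 458752000), (549755813888, 549755813888), (85899345920, 17179869184)] rfl (by decide +kernel)
theorem B6_c0_t24 : CovD 1 gB6 [(6643515392, 229376000), (549755813888, 549755813888), (111669149696, 8589934592)] :=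
  covD_E kB6_eq (.n 2 (.n 2 (.l 1) (.n 0 (.l 1) (.l 1))) (.n 1 (.n 0 (.l 1) (.n 2 (.l 1) (.l 1))) (.n 2 (.n 1 (.n 0 (.l 1) (.l 1)) (.l 0)) (.n 0 (.l 0) (.l 0)))))
    [(6643515392, 229376000), (549755813888, 549755813888), (111669149696, 8589934592)] rfl (by decide +kernel)
end

mutual
theorem B6_c0_t25 : CovD 1 gB6 [(6643515392, 229376000), (549755813888, 549755813888), (128849018880, 8589934592)] :=
  covD_E kB6_eq (.n 0 (.n 1 (.n 2 (.n 1 (.n 0 (.l 1) (.l 1)) (.n 2 (.l 1) (.l 0))) (.n 0 (.n 2 (.l 0) (.l 0)) (.l 0))) (.l 0)) (.n 1 (.n 2 (.n 1 (.n 2 (.l 1) (.l 0)) (.l 0)) (.l 0)) (.l 0)))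
    [(6643515392, 229376000), (549755813888, 549755813888), (128849018880, 8589934592)] rfl (by decide +kernel)
theorem B6_c0_t26 : CovD 1 gB6 [(7102267392, 229376000), (549755813888, 549755813888), (120259084288, 17179869184)] :=
  covD_E kB6_eq (.n 2 (.n 2 (.n 2 (.l 1) (.n 1 (.l 1) (.n 0 (.l 1) (.l 1)))) (.n 1 (.n 2 (.n 1 (.l 1) (.n 0 (.l 1) (.l 1))) (.n 0 (.l 0) (.l 0))) (.l 0))) (.n 2 (.l 0) (.l 0)))
    [(7102267392, 229376000), (549755813888, 549755813888), (120259084288, 17179869184)] rfl (by decide +kernel)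
end

mutual
theorem D6_c0_t3 : CovD 1 gD6 [(5955387392, 458752000), (137438953472, 137438953472), (863610339328, 863610339328)] :=
  covD_E kD6_eq (.n 1 (.n 2 (.n 2 (.n 2 (.l 0) (.l 0)) (.n 2 (.l 0) (.l 0))) (.n 2 (.n 2 (.l 0) (.l 0)) (.n 2 (.l 0) (.l 0)))) (.n 2 (.n 2 (.n 2 (.l 0) (.l 0)) (.n 2 (.l 0) (.l 0))) (.n 2 (.n 2 (.l 0) (.l 0)) (.n 2 (.l 0) (.l 0)))))
    [(5955387392, 458752000), (137438953472, 137438953472), (863610339328, 863610339328)] rfl (by decide +kernel)
theorem D6_c0_t5 : CovD 1 gD6 [(5726011392, 229376000), (412316860416, 137438953472), (863610339328, 863610339328)] :=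
  covD_E kD6_eq (.n 1 (.n 2 (.n 2 (.n 2 (.l 0) (.l 0)) (.n 2 (.l 0) (.l 0))) (.n 2 (.n 2 (.l 0) (.l 0)) (.n 2 (.l 0) (.l 0)))) (.n 2 (.n 2 (.n 2 (.l 0) (.l 0)) (.n 2 (.l 0) (.l 0))) (.n 2 (.n 2 (.l 0) (.l 0)) (.n 2 (.l 0) (.l 0)))))
    [(5726011392, 229376000), (412316860416, 137438953472), (863610339328, 863610339328)] rfl (by decide +kernel)
end

mutual
theorem D6_c0_t6 : CovD 1 gD6 [(6184763392, 229376000), (412316860416, 137438953472), (863610339328, 863610339328)] :=
  covD_E kD6_eq (.n 2 (.n 2 (.n 2 (.l 0) (.l 0)) (.n 2 (.l 0) (.l 0))) (.n 2 (.n 2 (.l 0) (.l 0)) (.n 2 (.l 0) (.l 0))))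
    [(6184763392, 229376000), (412316860416, 137438953472), (863610339328, 863610339328)] rfl (by decide +kernel)
theorem D6_c0_t9 : CovD 1 gD6 [(5726011392, 229376000), (687194767360, 137438953472), (863610339328, 863610339328)] :=
  covD_E kD6_eq (.n 2 (.n 2 (.n 2 (.n 0 (.l 0) (.l 0)) (.n 2 (.l 0) (.l 0))) (.n 2 (.n 2 (.l 0) (.l 0)) (.n 2 (.l 0) (.l 0)))) (.n 2 (.n 2 (.n 2 (.l 0) (.l 0)) (.n 2 (.l 0) (.l 0))) (.n 2 (.n 2 (.l 0) (.l 0)) (.n 2 (.l 0) (.l 0)))))
    [(5726011392, 229376000), (687194767360, 137438953472), (863610339328, 863610339328)] rfl (by decide +kernel)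
end

mutual
theorem D6_c0_t11 : CovD 1 gD6 [(5611323392, 114688000), (962072674304, 137438953472), (863610339328, 863610339328)] :=
  covD_E kD6_eq (.n 1 (.n 2 (.n 2 (.n 2 (.l 0) (.l 0)) (.n 2 (.l 0) (.l 0))) (.n 2 (.n 2 (.l 0) (.l 0)) (.n 2 (.l 0) (.l 0)))) (.n 2 (.n 2 (.n 2 (.l 0) (.l 0)) (.n 2 (.l 0) (.l 0))) (.n 2 (.n 2 (.l 0) (.l 0)) (.n 2 (.l 0) (.l 0)))))
    [(5611323392, 114688000), (962072674304, 137438953472), (863610339328, 863610339328)] rfl (by decide +kernel)
theorem D6_c0_t12 : CovD 1 gD6 [(5840699392, 114688000), (962072674304, 137438953472), (863610339328, 863610339328)] :=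
  covD_E kD6_eq (.n 2 (.n 2 (.n 2 (.l 0) (.n 0 (.l 0) (.l 0))) (.n 0 (.n 2 (.l 0) (.l 0)) (.n 2 (.l 0) (.l 0)))) (.n 1 (.n 2 (.n 2 (.l 0) (.l 0)) (.n 2 (.l 0) (.l 0))) (.n 2 (.n 2 (.l 0) (.l 0)) (.n 2 (.l 0) (.l 0)))))
    [(5840699392, 114688000), (962072674304, 137438953472), (863610339328, 863610339328)] rfl (by decide +kernel)
end

mutual
theorem D6_c0_t14 : CovD 1 gD6 [(6184763392, 229376000), (687194767360, 137438953472), (863610339328, 863610339328)] :=
  covD_E kD6_eq (.n 0 (.n 2 (.n 2 (.n 2 (.l 0) (.l 0)) (.n 2 (.l 0) (.l 0))) (.n 2 (.n 2 (.l 0) (.l 0)) (.n 2 (.l 0) (.l 0)))) (.n 2 (.n 2 (.n 2 (.l 0) (.l 0)) (.n 2 (.l 0) (.l 0))) (.n 2 (.n 2 (.l 0) (.l 0)) (.n 2 (.l 0) (.l 0)))))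
    [(6184763392, 229376000), (687194767360, 137438953472), (863610339328, 863610339328)] rfl (by decide +kernel)
theorem D6_c0_t15 : CovD 1 gD6 [(6184763392, 229376000), (962072674304, 137438953472), (863610339328, 863610339328)] :=
  covD_E kD6_eq (.n 2 (.n 0 (.n 2 (.n 2 (.l 0) (.l 0)) (.n 2 (.l 0) (.l 0))) (.n 2 (.n 2 (.l 0) (.l 0)) (.n 2 (.l 0) (.l 0)))) (.n 2 (.n 0 (.n 2 (.l 0) (.l 0)) (.n 2 (.l 0) (.l 0))) (.n 2 (.n 0 (.l 0) (.l 0)) (.n 2 (.l 0) (.l 0)))))
    [(6184763392, 229376000), (962072674304, 137438953472), (863610339328, 863610339328)] rfl (by decide +kernel)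
end

mutual
theorem D6_c0_t17 : CovD 1 gD6 [(6872891392, 458752000), (274877906944, 274877906944), (863610339328, 863610339328)] :=
  covD_E kD6_eq (.n 2 (.n 2 (.n 0 (.n 2 (.l 0) (.l 0)) (.n 2 (.l 0) (.l 0))) (.n 2 (.n 0 (.l 0) (.l 0)) (.n 2 (.l 0) (.l 0)))) (.n 2 (.n 2 (.n 2 (.l 0) (.l 0)) (.n 1 (.l 0) (.l 0))) (.n 2 (.n 2 (.l 0) (.l 0)) (.n 2 (.l 0) (.l 0)))))
    [(6872891392, 458752000), (274877906944, 274877906944), (863610339328, 863610339328)] rfl (by decide +kernel)
theorem D6_c0_t19 : CovD 1 gD6 [(6643515392, 229376000), (824633720832, 274877906944), (863610339328, 863610339328)] :=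
  covD_E kD6_eq (.n 2 (.n 2 (.n 0 (.n 2 (.l 0) (.l 0)) (.n 2 (.l 0) (.l 0))) (.n 2 (.n 1 (.l 0) (.l 0)) (.n 2 (.l 0) (.l 0)))) (.n 2 (.n 2 (.n 2 (.l 0) (.l 0)) (.n 2 (.l 0) (.l 0))) (.n 2 (.n 2 (.l 0) (.l 0)) (.n 2 (.l 0) (.l 0)))))
    [(6643515392, 229376000), (824633720832, 274877906944), (863610339328, 863610339328)] rfl (by decide +kernel)
end

mutual
theorem D6_c0_t20 : CovD 1 gD6 [(7102267392, 229376000), (824633720832, 274877906944), (863610339328, 863610339328)] :=
  covD_E kD6_eq (.n 2 (.n 2 (.n 2 (.l 0) (.l 0)) (.n 2 (.l 0) (.l 0))) (.n 2 (.n 2 (.l 0) (.l 0)) (.n 2 (.l 0) (.n 0 (.l 0) (.l 0)))))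
    [(7102267392, 229376000), (824633720832, 274877906944), (863610339328, 863610339328)] rfl (by decide +kernel)
theorem E6_c0_t5 : CovD 1 gE6 [(5955387392, 458752000), (549755813888, 549755813888), (53975646208, 53975646208)] :=
  covD_E kE6_eq (.n 2 (.n 2 (.n 2 (.n 1 (.n 2 (.n 2 (.l 1) (.l 1)) (.l 1)) (.n 2 (.n 2 (.n 0 (.l 1) (.l 1)) (.l 1)) (.n 0 (.l 1) (.l 1)))) (.n 2 (.n 0 (.l 1) (.l 1)) (.l 1))) (.n 2 (.n 0 (.l 1) (.l 1)) (.l 1))) (.n 2 (.l 1) (.l 1)))
    [(5955387392, 458752000), (549755813888, 549755813888), (53975646208, 53975646208)] rfl (by decide +kernel)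
end

mutual
theorem E6_c0_t6 : CovD 1 gE6 [(5955387392, 458752000), (549755813888, 549755813888), (161926938624, 53975646208)] :=
  covD_E kE6_eq (.n 2 (.l 1) (.l 1))
    [(5955387392, 458752000), (549755813888, 549755813888), (161926938624, 53975646208)] rfl (by decide +kernel)
theorem E6_c0_t7 : CovD 1 gE6 [(5955387392, 458752000), (549755813888, 549755813888), (323853877248, 107951292416)] :=
  covD_E kE6_eq (.n 1 (.n 2 (.n 2 (.l 1) (.l 1)) (.n 2 (.n 2 (.l 0) (.l 0)) (.n 2 (.l 0) (.l 0)))) (.n 2 (.l 1) (.n 2 (.l 1) (.n 0 (.n 0 (.l 0) (.l 0)) (.l 1)))))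
    [(5955387392, 458752000), (549755813888, 549755813888), (323853877248, 107951292416)] rfl (by decide +kernel)
end

mutual
theorem E6_c0_t9 : CovD 1 gE6 [(5955387392, 458752000), (274877906944, 274877906944), (647707754496, 215902584832)] :=
  covD_E kE6_eq (.n 1 (.n 2 (.n 2 (.n 2 (.l 0) (.l 0)) (.n 2 (.l 0) (.l 0))) (.n 2 (.n 0 (.l 0) (.l 0)) (.l 0))) (.n 2 (.n 2 (.n 2 (.l 0) (.l 0)) (.n 2 (.l 0) (.l 0))) (.n 2 (.l 0) (.l 0))))
    [(5955387392, 458752000), (274877906944, 274877906944), (647707754496, 215902584832)] rfl (by decide +kernel)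
theorem E6_c0_t11 : CovD 1 gE6 [(5955387392, 458752000), (687194767360, 137438953472), (647707754496, 215902584832)] :=
  covD_E kE6_eq (.n 2 (.n 2 (.n 2 (.l 0) (.l 0)) (.n 0 (.l 0) (.l 0))) (.n 0 (.n 2 (.l 0) (.l 0)) (.n 2 (.l 0) (.l 0))))
    [(5955387392, 458752000), (687194767360, 137438953472), (647707754496, 215902584832)] rfl (by decide +kernel)
end

mutual
theorem E6_c0_t12 : CovD 1 gE6 [(5955387392, 458752000), (962072674304, 137438953472), (647707754496, 215902584832)] :=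
  covD_E kE6_eq (.n 2 (.n 2 (.n 2 (.l 0) (.l 0)) (.n 0 (.n 0 (.l 0) (.l 0)) (.l 0))) (.n 0 (.n 0 (.n 2 (.l 0) (.l 0)) (.n 2 (.l 0) (.l 0))) (.n 2 (.l 0) (.l 0))))
    [(5955387392, 458752000), (962072674304, 137438953472), (647707754496, 215902584832)] rfl (by decide +kernel)
theorem E6_c0_t15 : CovD 1 gE6 [(5955387392, 458752000), (137438953472, 137438953472), (1295415508992, 431805169664)] :=
  covD_E kE6_eq (.n 2 (.n 2 (.n 2 (.l 0) (.l 0)) (.n 2 (.l 0) (.l 0))) (.n 2 (.n 2 (.l 0) (.l 0)) (.n 2 (.l 0) (.l 0))))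
    [(5955387392, 458752000), (137438953472, 137438953472), (1295415508992, 431805169664)] rfl (by decide +kernel)
end

mutual
theorem E6_c0_t16 : CovD 1 gE6 [(5955387392, 458752000), (412316860416, 137438953472), (1295415508992, 431805169664)] :=
  covD_E kE6_eq (.n 2 (.n 2 (.n 2 (.l 0) (.l 0)) (.n 2 (.l 0) (.l 0))) (.n 2 (.n 2 (.l 0) (.n 0 (.l 0) (.l 0))) (.n 0 (.n 2 (.l 0) (.l 0)) (.n 0 (.l 0) (.l 0)))))
    [(5955387392, 458752000), (412316860416, 137438953472), (1295415508992, 431805169664)] rfl (by decide +kernel)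
theorem E6_c0_t19 : CovD 1 gE6 [(5726011392, 229376000), (687194767360, 137438953472), (1295415508992, 431805169664)] :=
  covD_E kE6_eq (.n 2 (.n 2 (.n 2 (.l 0) (.l 0)) (.n 2 (.l 0) (.l 0))) (.n 2 (.n 2 (.l 0) (.l 0)) (.n 2 (.l 0) (.l 0))))
    [(5726011392, 229376000), (687194767360, 137438953472), (1295415508992, 431805169664)] rfl (by decide +kernel)
end

mutual
theorem E6_c0_t20 : CovD 1 gE6 [(5726011392, 229376000), (962072674304, 137438953472), (1295415508992, 431805169664)] :=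
  covD_E kE6_eq (.n 0 (.n 2 (.n 2 (.n 2 (.l 0) (.l 0)) (.n 2 (.l 0) (.l 0))) (.n 2 (.n 2 (.l 0) (.l 0)) (.n 2 (.l 0) (.l 0)))) (.n 2 (.n 2 (.n 2 (.l 0) (.l 0)) (.n 2 (.l 0) (.l 0))) (.n 2 (.n 2 (.l 0) (.l 0)) (.n 2 (.l 0) (.l 0)))))
    [(5726011392, 229376000), (962072674304, 137438953472), (1295415508992, 431805169664)] rfl (by decide +kernel)
theorem E6_c0_t21 : CovD 1 gE6 [(6184763392, 229376000), (824633720832, 274877906944), (1295415508992, 431805169664)] :=
  covD_E kE6_eq (.n 1 (.n 2 (.n 2 (.n 2 (.l 0) (.l 0)) (.n 2 (.l 0) (.l 0))) (.n 2 (.n 2 (.l 0) (.l 0)) (.n 2 (.l 0) (.l 0)))) (.n 2 (.n 2 (.n 2 (.l 0) (.l 0)) (.n 2 (.l 0) (.l 0))) (.n 2 (.n 2 (.l 0) (.l 0)) (.n 2 (.l 0) (.l 0)))))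
    [(6184763392, 229376000), (824633720832, 274877906944), (1295415508992, 431805169664)] rfl (by decide +kernel)
end

mutual
theorem E6_c0_t24 : CovD 1 gE6 [(6872891392, 458752000), (549755813888, 549755813888), (215902584832, 215902584832)] :=
  covD_E kE6_eq (.n 2 (.n 2 (.n 2 (.n 2 (.n 2 (.n 2 (.n 2 (.n 0 (.l 1) (.l 1)) (.l 1)) (.n 0 (.l 1) (.l 1))) (.n 2 (.l 1) (.l 1))) (.n 1 (.l 1) (.l 1))) (.n 1 (.l 1) (.l 1))) (.n 2 (.l 1) (.l 1))) (.n 2 (.l 1) (.n 1 (.l 1) (.l 1))))
    [(6872891392, 458752000), (549755813888, 549755813888), (215902584832, 215902584832)] rfl (by decide +kernel)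
theorem E6_c0_t26 : CovD 1 gE6 [(6872891392, 458752000), (274877906944, 274877906944), (647707754496, 215902584832)] :=
  covD_E kE6_eq (.n 2 (.n 2 (.n 2 (.l 0) (.l 0)) (.n 0 (.l 0) (.l 0))) (.n 0 (.n 2 (.l 0) (.l 0)) (.n 2 (.l 0) (.l 0))))
    [(6872891392, 458752000), (274877906944, 274877906944), (647707754496, 215902584832)] rfl (by decide +kernel)
end

mutual
theorem E6_c0_t27 : CovD 1 gE6 [(6872891392, 458752000), (824633720832, 274877906944), (647707754496, 215902584832)] :=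
  covD_E kE6_eq (.n 2 (.n 2 (.n 2 (.l 1) (.n 0 (.l 0) (.l 1))) (.n 0 (.l 0) (.l 0))) (.n 0 (.n 2 (.l 0) (.l 0)) (.n 2 (.l 0) (.l 0))))
    [(6872891392, 458752000), (824633720832, 274877906944), (647707754496, 215902584832)] rfl (by decide +kernel)
theorem E6_c0_t29 : CovD 1 gE6 [(6643515392, 229376000), (549755813888, 549755813888), (1295415508992, 431805169664)] :=
  covD_E kE6_eq (.n 1 (.n 2 (.n 2 (.n 2 (.l 0) (.l 0)) (.n 1 (.l 0) (.l 0))) (.n 1 (.n 2 (.l 0) (.l 0)) (.n 2 (.l 0) (.l 0)))) (.n 2 (.n 2 (.n 2 (.l 0) (.l 0)) (.n 2 (.l 0) (.l 0))) (.n 2 (.n 2 (.l 0) (.l 0)) (.n 2 (.l 0) (.l 0)))))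
    [(6643515392, 229376000), (549755813888, 549755813888), (1295415508992, 431805169664)] rfl (by decide +kernel)
end

theorem E6_c0_t30 : CovD 1 gE6 [(7102267392, 229376000), (549755813888, 549755813888), (1295415508992, 431805169664)] :=
  covD_E kE6_eq (.n 2 (.n 2 (.n 2 (.l 0) (.l 0)) (.n 2 (.l 0) (.l 0))) (.n 2 (.n 2 (.l 0) (.l 0)) (.n 2 (.l 0) (.l 0))))
    [(7102267392, 229376000), (549755813888, 549755813888), (1295415508992, 431805169664)] rfl (by decide +kernel)

theorem A6_c0_t10 : CovD 1 gA6 [(5726011392, 229376000), (137438953472, 137438953472), (8246337208320, 549755813888)] :=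
  covD_split 0 (by decide +kernel) A6_c0_t11 A6_c0_t12

theorem A6_c0_t8 : CovD 1 gA6 [(5726011392, 229376000), (137438953472, 137438953472), (7696581394432, 1099511627776)] :=
  covD_split 2 (by decide +kernel) A6_c0_t9 A6_c0_t10

theorem A6_c0_t6 : CovD 1 gA6 [(5726011392, 229376000), (137438953472, 137438953472), (6597069766656, 2199023255552)] :=
  covD_split 2 (by decide +kernel) A6_c0_t7 A6_c0_t8

theorem A6_c0_t4 : CovD 1 gA6 [(5726011392, 229376000), (137438953472, 137438953472), (4398046511104, 4398046511104)] :=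
  covD_split 2 (by decide +kernel) A6_c0_t5 A6_c0_t6

theorem A6_c0_t13 : CovD 1 gA6 [(6184763392, 229376000), (137438953472, 137438953472), (4398046511104, 4398046511104)] :=
  covD_split 2 (by decide +kernel) A6_c0_t14 A6_c0_t15

theorem A6_c0_t3 : CovD 1 gA6 [(5955387392, 458752000), (137438953472, 137438953472), (4398046511104, 4398046511104)] :=
  covD_split 0 (by decide +kernel) A6_c0_t4 A6_c0_t13

theorem A6_c0_t18 : CovD 1 gA6 [(5955387392, 458752000), (412316860416, 137438953472), (6597069766656, 2199023255552)] :=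
  covD_split 0 (by decide +kernel) A6_c0_t19 A6_c0_t20

theorem A6_c0_t16 : CovD 1 gA6 [(5955387392, 458752000), (412316860416, 137438953472), (4398046511104, 4398046511104)] :=
  covD_split 2 (by decide +kernel) A6_c0_t17 A6_c0_t18

theorem A6_c0_t2 : CovD 1 gA6 [(5955387392, 458752000), (274877906944, 274877906944), (4398046511104, 4398046511104)] :=
  covD_split 1 (by decide +kernel) A6_c0_t3 A6_c0_t16

theorem A6_c0_t21 : CovD 1 gA6 [(5955387392, 458752000), (824633720832, 274877906944), (4398046511104, 4398046511104)] :=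
  covD_split 2 (by decide +kernel) A6_c0_t22 A6_c0_t23

theorem A6_c0_t1 : CovD 1 gA6 [(5955387392, 458752000), (549755813888, 549755813888), (4398046511104, 4398046511104)] :=
  covD_split 1 (by decide +kernel) A6_c0_t2 A6_c0_t21

theorem A6_c0_t24 : CovD 1 gA6 [(6872891392, 458752000), (549755813888, 549755813888), (4398046511104, 4398046511104)] :=
  covD_split 1 (by decide +kernel) A6_c0_t25 A6_c0_t26

theorem A6_c0 : CovD 1 gA6 [(6414139392, 917504000), (549755813888, 549755813888), (4398046511104, 4398046511104)] :=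
  covD_split 0 (by decide +kernel) A6_c0_t1 A6_c0_t24

theorem B6_c0_t8 : CovD 1 gB6 [(5726011392, 229376000), (824633720832, 274877906944), (120259084288, 17179869184)] :=
  covD_split 2 (by decide +kernel) B6_c0_t9 B6_c0_t10

theorem B6_c0_t6 : CovD 1 gB6 [(5726011392, 229376000), (549755813888, 549755813888), (120259084288, 17179869184)] :=
  covD_split 1 (by decide +kernel) B6_c0_t7 B6_c0_t8

theorem B6_c0_t14 : CovD 1 gB6 [(6184763392, 229376000), (274877906944, 274877906944), (128849018880, 8589934592)] :=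
  covD_split 0 (by decide +kernel) B6_c0_t15 B6_c0_t16

theorem B6_c0_t12 : CovD 1 gB6 [(6184763392, 229376000), (274877906944, 274877906944), (120259084288, 17179869184)] :=
  covD_split 2 (by decide +kernel) B6_c0_t13 B6_c0_t14

theorem B6_c0_t17 : CovD 1 gB6 [(6184763392, 229376000), (824633720832, 274877906944), (120259084288, 17179869184)] :=
  covD_split 2 (by decide +kernel) B6_c0_t18 B6_c0_t19

theorem B6_c0_t11 : CovD 1 gB6 [(6184763392, 229376000), (549755813888, 549755813888), (120259084288, 17179869184)] :=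
  covD_split 1 (by decide +kernel) B6_c0_t12 B6_c0_t17

theorem B6_c0_t5 : CovD 1 gB6 [(5955387392, 458752000), (549755813888, 549755813888), (120259084288, 17179869184)] :=
  covD_split 0 (by decide +kernel) B6_c0_t6 B6_c0_t11

theorem B6_c0_t3 : CovD 1 gB6 [(5955387392, 458752000), (549755813888, 549755813888), (103079215104, 34359738368)] :=
  covD_split 2 (by decide +kernel) B6_c0_t4 B6_c0_t5

theorem B6_c0_t23 : CovD 1 gB6 [(6643515392, 229376000), (549755813888, 549755813888), (120259084288, 17179869184)] :=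
  covD_split 2 (by decide +kernel) B6_c0_t24 B6_c0_t25

theorem B6_c0_t22 : CovD 1 gB6 [(6872891392, 458752000), (549755813888, 549755813888), (120259084288, 17179869184)] :=
  covD_split 0 (by decide +kernel) B6_c0_t23 B6_c0_t26

theorem B6_c0_t20 : CovD 1 gB6 [(6872891392, 458752000), (549755813888, 549755813888), (103079215104, 34359738368)] :=
  covD_split 2 (by decide +kernel) B6_c0_t21 B6_c0_t22

theorem B6_c0_t2 : CovD 1 gB6 [(6414139392, 917504000), (549755813888, 549755813888), (103079215104, 34359738368)] :=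
  covD_split 0 (by decide +kernel) B6_c0_t3 B6_c0_t20

theorem B6_c0 : CovD 1 gB6 [(6414139392, 917504000), (549755813888, 549755813888), (68719476736, 68719476736)] :=
  covD_split 2 (by decide +kernel) B6_c0_t1 B6_c0_t2

theorem D6_c0_t4 : CovD 1 gD6 [(5955387392, 458752000), (412316860416, 137438953472), (863610339328, 863610339328)] :=
  covD_split 0 (by decide +kernel) D6_c0_t5 D6_c0_t6

theorem D6_c0_t2 : CovD 1 gD6 [(5955387392, 458752000), (274877906944, 274877906944), (863610339328, 863610339328)] :=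
  covD_split 1 (by decide +kernel) D6_c0_t3 D6_c0_t4

theorem D6_c0_t10 : CovD 1 gD6 [(5726011392, 229376000), (962072674304, 137438953472), (863610339328, 863610339328)] :=
  covD_split 0 (by decide +kernel) D6_c0_t11 D6_c0_t12

theorem D6_c0_t8 : CovD 1 gD6 [(5726011392, 229376000), (824633720832, 274877906944), (863610339328, 863610339328)] :=
  covD_split 1 (by decide +kernel) D6_c0_t9 D6_c0_t10

theorem D6_c0_t13 : CovD 1 gD6 [(6184763392, 229376000), (824633720832, 274877906944), (863610339328, 863610339328)] :=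
  covD_split 1 (by decide +kernel) D6_c0_t14 D6_c0_t15

theorem D6_c0_t7 : CovD 1 gD6 [(5955387392, 458752000), (824633720832, 274877906944), (863610339328, 863610339328)] :=
  covD_split 0 (by decide +kernel) D6_c0_t8 D6_c0_t13

theorem D6_c0_t1 : CovD 1 gD6 [(5955387392, 458752000), (549755813888, 549755813888), (863610339328, 863610339328)] :=
  covD_split 1 (by decide +kernel) D6_c0_t2 D6_c0_t7

theorem D6_c0_t18 : CovD 1 gD6 [(6872891392, 458752000), (824633720832, 274877906944), (863610339328, 863610339328)] :=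
  covD_split 0 (by decide +kernel) D6_c0_t19 D6_c0_t20

theorem D6_c0_t16 : CovD 1 gD6 [(6872891392, 458752000), (549755813888, 549755813888), (863610339328, 863610339328)] :=
  covD_split 1 (by decide +kernel) D6_c0_t17 D6_c0_t18

theorem D6_c0 : CovD 1 gD6 [(6414139392, 917504000), (549755813888, 549755813888), (863610339328, 863610339328)] :=
  covD_split 0 (by decide +kernel) D6_c0_t1 D6_c0_t16

theorem E6_c0_t4 : CovD 1 gE6 [(5955387392, 458752000), (549755813888, 549755813888), (107951292416, 107951292416)] :=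
  covD_split 2 (by decide +kernel) E6_c0_t5 E6_c0_t6

theorem E6_c0_t3 : CovD 1 gE6 [(5955387392, 458752000), (549755813888, 549755813888), (215902584832, 215902584832)] :=
  covD_split 2 (by decide +kernel) E6_c0_t4 E6_c0_t7

theorem E6_c0_t10 : CovD 1 gE6 [(5955387392, 458752000), (824633720832, 274877906944), (647707754496, 215902584832)] :=
  covD_split 1 (by decide +kernel) E6_c0_t11 E6_c0_t12

theorem E6_c0_t8 : CovD 1 gE6 [(5955387392, 458752000), (549755813888, 549755813888), (647707754496, 215902584832)] :=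
  covD_split 1 (by decide +kernel) E6_c0_t9 E6_c0_t10

theorem E6_c0_t2 : CovD 1 gE6 [(5955387392, 458752000), (549755813888, 549755813888), (431805169664, 431805169664)] :=
  covD_split 2 (by decide +kernel) E6_c0_t3 E6_c0_t8

theorem E6_c0_t14 : CovD 1 gE6 [(5955387392, 458752000), (274877906944, 274877906944), (1295415508992, 431805169664)] :=
  covD_split 1 (by decide +kernel) E6_c0_t15 E6_c0_t16

theorem E6_c0_t18 : CovD 1 gE6 [(5726011392, 229376000), (824633720832, 274877906944), (1295415508992, 431805169664)] :=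
  covD_split 1 (by decide +kernel) E6_c0_t19 E6_c0_t20

theorem E6_c0_t17 : CovD 1 gE6 [(5955387392, 458752000), (824633720832, 274877906944), (1295415508992, 431805169664)] :=
  covD_split 0 (by decide +kernel) E6_c0_t18 E6_c0_t21

theorem E6_c0_t13 : CovD 1 gE6 [(5955387392, 458752000), (549755813888, 549755813888), (1295415508992, 431805169664)] :=
  covD_split 1 (by decide +kernel) E6_c0_t14 E6_c0_t17

theorem E6_c0_t1 : CovD 1 gE6 [(5955387392, 458752000), (549755813888, 549755813888), (863610339328, 863610339328)] :=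
  covD_split 2 (by decide +kernel) E6_c0_t2 E6_c0_t13

theorem E6_c0_t25 : CovD 1 gE6 [(6872891392, 458752000), (549755813888, 549755813888), (647707754496, 215902584832)] :=
  covD_split 1 (by decide +kernel) E6_c0_t26 E6_c0_t27

theorem E6_c0_t23 : CovD 1 gE6 [(6872891392, 458752000), (549755813888, 549755813888), (431805169664, 431805169664)] :=
  covD_split 2 (by decide +kernel) E6_c0_t24 E6_c0_t25

theorem E6_c0_t28 : CovD 1 gE6 [(6872891392, 458752000), (549755813888, 549755813888), (1295415508992, 431805169664)] :=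
  covD_split 0 (by decide +kernel) E6_c0_t29 E6_c0_t30

theorem E6_c0_t22 : CovD 1 gE6 [(6872891392, 458752000), (549755813888, 549755813888), (863610339328, 863610339328)] :=
  covD_split 2 (by decide +kernel) E6_c0_t23 E6_c0_t28

theorem E6_c0 : CovD 1 gE6 [(6414139392, 917504000), (549755813888, 549755813888), (863610339328, 863610339328)] :=
  covD_split 0 (by decide +kernel) E6_c0_t1 E6_c0_t22

end Pool.Agent.helper14.NS.Q150h
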