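import Pool.Agent.helper14.NS.Q150h.Tab
import Pool.Agent.helper14.NR.Share

/-!
Generated: programs and compiled forms.
-/

namespace Pool.Agent.helper14.NS.Q150h

open Pool.Agent.helper31.IA (Z)
open Pool.Agent.helper31.IX (Op XOps runX Cov CovD cov_split covD_split)
open Pool.Agent.helper31.IC (TD)
open Pool.Agent.helper63.RG (reloc)
open Pool.Agent.helper63.NF hiding TD
open Pool.Agent.helper4.NS
open Pool.Agent.helper14.CF (xE covD_E)
open Pool.Agent.helper14.NR (share)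

def p_Z_0 : List Op := [
  .const ⟨1099511627776, 0, 0, 0⟩,
  .scale ⟨2251799813685248, 0, 0, 0⟩ 1,
  .scale ⟨46151436861440, 0, 0, 0⟩ 0,
  .const ⟨0, 1836253137862656, 0, 0⟩,
  .add 1 0,
  .mul 0 5,
  .const ⟨8251702771712, 0, 0, 0⟩,
  .add 1 0,
  .mul 9 0,
  .const ⟨8108898254848, 0, 0, 0⟩,
  .add 1 0,
  .mul 11 0,
  .scale ⟨2199023255552, 0, 0, 0⟩ 0,
  .exp 1,
  .neg 2,
  .exp 0,
  .mul 2 2,
  .mul 1 1,
  .mul 0 0,
  .add 2 1,
  .scale ⟨549755813888, 0, 0, 0⟩ 0,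
  .scale ⟨2199023255552, 0, 0, 0⟩ 10,
  .mul 10 10,
  .lt 0 68719476736,
  .scale ⟨9162596898, 0, 0, 0⟩ 0,
  .const ⟨183251937962, 0, 0, 0⟩,
  .add 1 0,
  .mul 0 3,
  .const ⟨1099511627776, 0, 0, 0⟩,
  .add 1 0,
  .const ⟨65536, 0, 0, 0⟩,
  .rball 1 0,
  .mul 9 0,
  .add 18 16,
  .scale ⟨549755813888, 0, 0, 0⟩ 0,
  .mul 2 0,
  .mul 3 3,
  .mul 36 0,
  .mul 2 2,
  .mul 38 0,
  .neg 17,
  .exp 0,
  .add 0 40,
  .pos 0,
  .log 0,
  .const ⟨6408896512, 0, 0, 0⟩,
  .sub 44 0,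
  .const ⟨8486855376896, 0, 0, 0⟩,
  .sub 35 0,
  .mul 0 0,
  .mul 0 1,
  .mul 0 2,
  .mul 0 3,
  .mul 6 4,
  .mul 7 4,
  .mul 8 8,
  .scale ⟨0, 1241182400, 0, 0⟩ 7,
  .scale ⟨33418368, 0, 0, 0⟩ 7,
  .add 1 0,
  .scale ⟨0, 3182592, 0, 0⟩ 8,
  .add 1 0,
  .scale ⟨547843464512, 0, 0, 0⟩ 14,
  .add 1 0,
  .scale ⟨96927064576, 0, 0, 0⟩ 9,
  .add 1 0,
  .scale ⟨10250352363456, 0, 0, 0⟩ 9,
  .add 1 0,
  .const ⟨562038779328, 0, 0, 0⟩,
  .add 1 0,
  .scale ⟨48008448, 0, 0, 0⟩ 20,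
  .scale ⟨0, 769152, 0, 0⟩ 20,
  .add 1 0,
  .scale ⟨0, 9724673024, 0, 0⟩ 25,
  .add 1 0,
  .const ⟨0, 581497600, 0, 0⟩,
  .add 1 0,
  .scale ⟨0, 608960, 0, 0⟩ 27,
  .scale ⟨0, 261612032, 0, 0⟩ 30,
  .add 1 0,
  .const ⟨15926720, 0, 0, 0⟩,
  .add 1 0,
  .scale ⟨0, 0, 1099511627776, 0⟩ 81,
  .scale ⟨549755813888, 0, 0, 0⟩ 0,
  .add 0 80,
  .inv 0,
  .mul 3 0,
  .scale ⟨0, 106530011456, 0, 0⟩ 0,
  .const ⟨96245984640, 0, 0, 0⟩,
  .add 1 0,
  .mul 3 0,
  .scale ⟨98350321600, 0, 0, 0⟩ 41,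
  .const ⟨0, 19981245440, 0, 0⟩,
  .add 1 0,
  .add 3 0,
  .mul 8 0,
  .scale ⟨0, 54681183616, 0, 0⟩ 46,
  .const ⟨234513246464, 0, 0, 0⟩,
  .add 1 0,
  .add 3 0,
  .mul 13 0,
  .scale ⟨74284471488, 0, 0, 0⟩ 51,
  .scale ⟨0, 25918400256, 0, 0⟩ 51,
  .add 1 0,
  .scale ⟨3986098133376, 0, 0, 0⟩ 56,
  .add 1 0,
  .const ⟨298861408256, 0, 0, 0⟩,
  .add 1 0,
  .add 7 0,
  .mul 22 0,
  .scale ⟨0, 97850629248, 0, 0⟩ 60,
  .scale ⟨3519837952, 0, 0, 0⟩ 60,
  .add 1 0,
  .scale ⟨20721881792, 0, 0, 0⟩ 61,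
  .add 1 0,
  .scale ⟨0, 65524498647360, 0, 0⟩ 67,
  .add 1 0,
  .const ⟨989425754496, 0, 0, 0⟩,
  .add 1 0,
  .add 9 0,
  .mul 33 0,
  .scale ⟨166316172992, 0, 0, 0⟩ 71,
  .scale ⟨4545929728, 0, 0, 0⟩ 71,
  .add 1 0,
  .scale ⟨0, 9365605248, 0, 0⟩ 72,
  .add 1 0,
  .scale ⟨90761655305728, 0, 0, 0⟩ 78,
  .add 1 0,
  .scale ⟨20358049691520, 0, 0, 0⟩ 73,
  .add 1 0,
  .const ⟨1155342085120, 0, 0, 0⟩,
  .add 1 0,
  .add 11 0,
  .mul 46 0,
  .scale ⟨0, 156387150272, 0, 0⟩ 84,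
  .scale ⟨0, 10022283712, 0, 0⟩ 84,
  .add 1 0,
  .scale ⟨5553115456, 0, 0, 0⟩ 85,
  .add 1 0,
  .scale ⟨6001968896, 0, 0, 0⟩ 86,
  .add 1 0,
  .scale ⟨0, 112759486939200, 0, 0⟩ 93,
  .add 1 0,
  .scale ⟨0, 17077069699392, 0, 0⟩ 88,
  .add 1 0,
  .const ⟨3692141056960, 0, 0, 0⟩,
  .add 1 0,
  .add 13 0,
  .mul 61 0,
  .scale ⟨39949428096, 0, 0, 0⟩ 99,
  .scale ⟨0, 690203712, 0, 0⟩ 99,
  .add 1 0,
  .scale ⟨157076160, 0, 0, 0⟩ 100,
  .add 1 0,
  .scale ⟨0, 1857194816, 0, 0⟩ 101,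
  .add 1 0,
  .scale ⟨1409079296, 0, 0, 0⟩ 102,
  .add 1 0,
  .scale ⟨46524960144512, 0, 0, 0⟩ 110,
  .add 1 0,
  .scale ⟨4826699025664, 0, 0, 0⟩ 105,
  .add 1 0,
  .scale ⟨96093992064, 0, 0, 0⟩ 106,
  .add 1 0,
  .scale ⟨0, 712856660625152, 0, 0⟩ 107,
  .add 1 0,
  .const ⟨256967838848, 0, 0, 0⟩,
  .add 1 0,
  .mul 0 154,
  .add 20 0,
  .mul 167 167,
  .scale ⟨5703716569088, 0, 0, 0⟩ 0,
  .const ⟨1726576852992, 0, 0, 0⟩,
  .add 1 0,
  .scale ⟨4398046511104, 0, 0, 0⟩ 160,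
  .mul 88 1,
  .scale ⟨4398046511104, 0, 0, 0⟩ 0,
  .add 2 0,
  .const ⟨54975594496, 0, 0, 0⟩,
  .mul 0 1,
  .scale ⟨549755813888, 0, 0, 0⟩ 2,
  .add 0 177,
  .pos 0,
  .inv 0,
  .mul 3 0,
  .neg 14,
  .exp 0,
  .add 0 182,
  .pos 0,
  .log 0,
  .mul 4 188,
  .sub 185 0,
  .pos 0,
  .log 0,
  .mul 5 2,
  .add 0 188,
  .pos 0,
  .log 0,
  .sub 6 0,
  .add 181 149,
  .sub 1 0,
  .mul 0 194,
  .exp 0,
  .sub 5 8,
  .add 0 30,
  .mul 0 198,
  .exp 0,
  .mul 168 168,
  .scale ⟨274877906944, 0, 0, 0⟩ 0,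
  .mul 34 0,
  .scale ⟨1649267441664, 0, 0, 0⟩ 0,
  .add 0 203,
  .mul 34 0,
  .mul 208 0,
  .scale ⟨0, 0, 1099511627776, 0⟩ 0,
  .mul 0 0,
  .sub 7 0,
  .mul 14 14,
  .mul 0 1,
  .mul 44 0,
  .scale ⟨4398046511104, 0, 0, 0⟩ 0,
  .sub 213 0,
  .pos 0,
  .log 0,
  .scale ⟨549755813888, 0, 0, 0⟩ 0,
  .exp 0,
  .mul 218 7,
  .mul 17 19,
  .scale ⟨2199023255552, 0, 0, 0⟩ 10,
  .add 1 0,
  .mul 3 0,
  .mul 15 5,
  .mul 28 0,
  .add 2 0,
  .mul 26 0,
  .scale ⟨4398046511104, 0, 0, 0⟩ 0,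
  .mul 228 0,
  .add 0 228,
  .pos 0,
  .log 0,
  .scale ⟨549755813888, 0, 0, 0⟩ 0,
  .exp 0,
  .add 0 232,
  .pos 0,
  .inv 0,
  .mul 7 0,
  .scale ⟨549755813888, 0, 0, 0⟩ 199,
  .sub 1 0,
  .const ⟨10769630494720, 0, 0, 0⟩,
  .add 201 0,
  .pos 0,
  .mul 2 2,
  .sub 0 203,
  .inv 2,
  .mul 1 0,
  .lt 0 1099510579200,
  .mul 244 48,
  .mul 0 37,
  .scale ⟨2199023255552, 0, 0, 0⟩ 0,
  .sub 29 0,
  .pos 0,
  .add 234 232,
  .mul 41 0,
  .mul 250 0,
  .add 0 230,
  .pos 0,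
  .inv 0,
  .mul 232 3,
  .add 0 215,
  .mul 2 0,
  .pos 256,
  .inv 256,
  .sub 19 1,
  .mul 0 1,
  .add 9 224,
  .mul 242 8,
  .inv 1,
  .mul 1 0,
  .mul 0 4,
  .mul 264 0,
  .add 0 264,
  .scale ⟨32230670336, 0, 0, 0⟩ 219,
  .scale ⟨4853858304, 0, 0, 0⟩ 219,
  .add 1 0,
  .scale ⟨0, 299171840, 0, 0⟩ 220,
  .add 1 0,
  .scale ⟨62790081642496, 0, 0, 0⟩ 226,
  .add 1 0,
  .scale ⟨10954496606208, 0, 0, 0⟩ 221,
  .add 1 0,
  .const ⟨547350052864, 0, 0, 0⟩,
  .add 1 0,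
  .scale ⟨2199023255552, 0, 0, 0⟩ 13,
  .inv 12,
  .mul 16 0,
  .mul 2 0,
  .mul 264 264,
  .inv 5,
  .mul 1 0,
  .mul 3 0,
  .lt 0 1099510579200,
  .mul 285 47,
  .add 0 265,
  .pos 0,
  .inv 0,
  .mul 270 0,
  .sub 51 254,
  .add 272 2,
  .mul 1 0,
  .mul 3 0,
  .mul 275 258,
  .scale ⟨2199023255552, 0, 0, 0⟩ 0,
  .add 2 0,
  .scale ⟨0, 320851236880384, 0, 0⟩ 251,
  .const ⟨0, 3740379643904, 0, 0⟩,
  .add 1 0,
  .sub 3 0,
  .pos 0,
  .inv 0,
  .scale ⟨31362867265536, 0, 0, 0⟩ 0,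
  .add 2 0,
  .pos 0,
  .inv 0,
  .scale ⟨23192718464, 0, 0, 0⟩ 257,
  .scale ⟨0, 3990710828928, 0, 0⟩ 260,
  .add 1 0,
  .const ⟨0, 125416087424, 0, 0⟩,
  .add 1 0,
  .scale ⟨0, 83055982336, 0, 0⟩ 262,
  .scale ⟨14145812554816, 0, 0, 0⟩ 265,
  .add 1 0,
  .const ⟨282862252928, 0, 0, 0⟩,
  .add 1 0,
  .mul 13 0,
  .add 6 0,
  .mul 0 12,
  .scale ⟨1984, 0, 0, 0⟩ 21,
  .const ⟨0, 278144, 0, 0⟩,
  .add 1 0,
  .mul 24 0,
  .add 0 242,
  .mul 26 0,
  .add 0 249,
  .mul 28 0,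
  .add 8 258,
  .add 1 0,
  .mul 34 0,
  .add 0 306,
  .neg 0,
  .exp 0,
  .add 0 330,
  .pos 0,
  .log 0,
  .add 166 148,
  .sub 0 1,
  .scale ⟨549755813888, 0, 0, 0⟩ 104,
  .mul 0 79,
  .sub 2 0,
  .exp 0,
  .scale ⟨2066284544, 0, 0, 0⟩ 255,
  .const ⟨1268711424, 0, 0, 0⟩,
  .add 1 0,
  .mul 258 0,
  .const ⟨6379929600, 0, 0, 0⟩,
  .add 1 0,
  .mul 261 0,
  .scale ⟨536215552, 0, 0, 0⟩ 299,
  .scale ⟨1219543171072, 0, 0, 0⟩ 302,
  .add 1 0,
  .const ⟨4439539712, 0, 0, 0⟩,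
  .add 1 0,
  .add 5 0,
  .mul 268 0,
  .scale ⟨0, 1321336832, 0, 0⟩ 306,
  .scale ⟨3024046850048, 0, 0, 0⟩ 309,
  .add 1 0,
  .const ⟨24759238656, 0, 0, 0⟩,
  .add 1 0,
  .add 5 0,
  .mul 275 0,
  .scale ⟨4633264128, 0, 0, 0⟩ 313,
  .scale ⟨43384832, 0, 0, 0⟩ 313,
  .add 1 0,
  .scale ⟨5415904215040, 0, 0, 0⟩ 318,
  .add 1 0,
  .scale ⟨1093019303936, 0, 0, 0⟩ 313,
  .add 1 0,
  .scale ⟨366726176178176, 0, 0, 0⟩ 313,
  .add 1 0,
  .const ⟨1113994559488, 0, 0, 0⟩,
  .add 1 0,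
  .add 11 0,
  .inv 195,
  .mul 0 194,
  .scale ⟨329907175424, 0, 0, 0⟩ 136,
  .add 0 374,
  .pos 0,
  .scale ⟨2199023255552, 0, 0, 0⟩ 363,
  .neg 0,
  .exp 0,
  .scale ⟨8796110848, 0, 0, 0⟩ 0,
  .scale ⟨2199023255552, 0, 0, 0⟩ 0,
  .add 143 346,
  .mul 1 0,
  .inv 7,
  .mul 1 0,
  .const ⟨0, 0, 0, 0⟩,
  .mul 14 47,
  .mul 0 56,
  .mul 3 14,
  .mul 1 0,
  .rball 4 0,
  .sub 390 19,
  .mul 395 0,
  .sub 392 54,
  .mul 0 20,
  .mul 23 0,
  .add 3 0,
  .add 0 6,
  .lt 0 1099510579200]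

set_option maxRecDepth 1000000 in
noncomputable def c_Z_0 {α : Type} (cst : Z → α) (add sub mul : α → α → α) (scale : Z → α → α)
    (neg inv exp log : α → α) (ok : α → Bool) (isPos : Nat → α → Bool) (isLt : α → Nat → Bool)
    (ball : Nat → α → α) (rball : α → α → α) : List α → Bool
  | [x0, x1, x2, x3] =>
  let v0 := cst ⟨1099511627776, 0, 0, 0⟩; ok v0 && (
  let v1 := scale ⟨2251799813685248, 0, 0, 0⟩ x0; ok v1 && (
  let v2 := scale ⟨46151436861440, 0, 0, 0⟩ v1; ok v2 && (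
  let v3 := cst ⟨0, 1836253137862656, 0, 0⟩; ok v3 && (
  let v4 := add v2 v3; ok v4 && (
  let v5 := mul v4 x0; ok v5 && (
  let v6 := cst ⟨8251702771712, 0, 0, 0⟩; ok v6 && (
  let v7 := add v5 v6; ok v7 && (
  let v8 := mul x1 v7; ok v8 && (
  let v9 := cst ⟨8108898254848, 0, 0, 0⟩; ok v9 && (
  let v10 := add v8 v9; ok v10 && (
  let v11 := mul x0 v10; ok v11 && (
  let v12 := scale ⟨2199023255552, 0, 0, 0⟩ v11; ok v12 && (
  let v13 := exp v11; ok v13 && (
  let v14 := neg v11; ok v14 && (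
  let v15 := exp v14; ok v15 && (
  let v16 := mul v13 v13; ok v16 && (
  let v17 := mul v15 v15; ok v17 && (
  let v18 := mul v17 v17; ok v18 && (
  let v19 := add v16 v17; ok v19 && (
  let v20 := scale ⟨549755813888, 0, 0, 0⟩ v19; ok v20 && (
  let v21 := scale ⟨2199023255552, 0, 0, 0⟩ v10; ok v21 && (
  let v22 := mul v11 v11; ok v22 && (
  isLt v22 68719476736 && (
  let v23 := scale ⟨9162596898, 0, 0, 0⟩ v22; ok v23 && (
  let v24 := cst ⟨183251937962, 0, 0, 0⟩; ok v24 && (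
  let v25 := add v23 v24; ok v25 && (
  let v26 := mul v25 v22; ok v26 && (
  let v27 := cst ⟨1099511627776, 0, 0, 0⟩; ok v27 && (
  let v28 := add v26 v27; ok v28 && (
  let v29 := cst ⟨65536, 0, 0, 0⟩; ok v29 && (
  let v30 := rball v28 v29; ok v30 && (
  let v31 := mul v21 v30; ok v31 && (
  let v32 := add v13 v15; ok v32 && (
  let v33 := scale ⟨549755813888, 0, 0, 0⟩ v32; ok v33 && (
  let v34 := mul v31 v33; ok v34 && (
  let v35 := mul v31 v31; ok v35 && (
  let v36 := mul x0 v35; ok v36 && (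
  let v37 := mul v34 v34; ok v37 && (
  let v38 := mul x0 v37; ok v38 && (
  let v39 := neg v21; ok v39 && (
  let v40 := exp v39; ok v40 && (
  let v41 := add v40 v0; ok v41 && (
  isPos 3 v41 && (
  let v42 := log v41; ok v42 && (
  let v43 := cst ⟨6408896512, 0, 0, 0⟩; ok v43 && (
  let v44 := sub x0 v43; ok v44 && (
  let v45 := cst ⟨8486855376896, 0, 0, 0⟩; ok v45 && (
  let v46 := sub v10 v45; ok v46 && (
  let v47 := mul v46 v46; ok v47 && (
  let v48 := mul v47 v46; ok v48 && (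
  let v49 := mul v48 v46; ok v49 && (
  let v50 := mul v49 v46; ok v50 && (
  let v51 := mul v44 v46; ok v51 && (
  let v52 := mul v44 v47; ok v52 && (
  let v53 := mul v44 v44; ok v53 && (
  let v54 := scale ⟨0, 1241182400, 0, 0⟩ v46; ok v54 && (
  let v55 := scale ⟨33418368, 0, 0, 0⟩ v47; ok v55 && (
  let v56 := add v54 v55; ok v56 && (
  let v57 := scale ⟨0, 3182592, 0, 0⟩ v48; ok v57 && (
  let v58 := add v56 v57; ok v58 && (
  let v59 := scale ⟨547843464512, 0, 0, 0⟩ v44; ok v59 && (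
  let v60 := add v58 v59; ok v60 && (
  let v61 := scale ⟨96927064576, 0, 0, 0⟩ v51; ok v61 && (
  let v62 := add v60 v61; ok v62 && (
  let v63 := scale ⟨10250352363456, 0, 0, 0⟩ v53; ok v63 && (
  let v64 := add v62 v63; ok v64 && (
  let v65 := cst ⟨562038779328, 0, 0, 0⟩; ok v65 && (
  let v66 := add v64 v65; ok v66 && (
  let v67 := scale ⟨48008448, 0, 0, 0⟩ v46; ok v67 && (
  let v68 := scale ⟨0, 769152, 0, 0⟩ v47; ok v68 && (
  let v69 := add v67 v68; ok v69 && (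
  let v70 := scale ⟨0, 9724673024, 0, 0⟩ v44; ok v70 && (
  let v71 := add v69 v70; ok v71 && (
  let v72 := cst ⟨0, 581497600, 0, 0⟩; ok v72 && (
  let v73 := add v71 v72; ok v73 && (
  let v74 := scale ⟨0, 608960, 0, 0⟩ v46; ok v74 && (
  let v75 := scale ⟨0, 261612032, 0, 0⟩ v44; ok v75 && (
  let v76 := add v74 v75; ok v76 && (
  let v77 := cst ⟨15926720, 0, 0, 0⟩; ok v77 && (
  let v78 := add v76 v77; ok v78 && (
  let v79 := scale ⟨0, 0, 1099511627776, 0⟩ x2; ok v79 && (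
  let v80 := scale ⟨549755813888, 0, 0, 0⟩ v79; ok v80 && (
  let v81 := add v80 v0; ok v81 && (
  let v82 := inv v81; ok v82 && (
  let v83 := mul v79 v82; ok v83 && (
  let v84 := scale ⟨0, 106530011456, 0, 0⟩ v83; ok v84 && (
  let v85 := cst ⟨96245984640, 0, 0, 0⟩; ok v85 && (
  let v86 := add v84 v85; ok v86 && (
  let v87 := mul v83 v86; ok v87 && (
  let v88 := scale ⟨98350321600, 0, 0, 0⟩ v46; ok v88 && (
  let v89 := cst ⟨0, 19981245440, 0, 0⟩; ok v89 && (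
  let v90 := add v88 v89; ok v90 && (
  let v91 := add v87 v90; ok v91 && (
  let v92 := mul v83 v91; ok v92 && (
  let v93 := scale ⟨0, 54681183616, 0, 0⟩ v46; ok v93 && (
  let v94 := cst ⟨234513246464, 0, 0, 0⟩; ok v94 && (
  let v95 := add v93 v94; ok v95 && (
  let v96 := add v92 v95; ok v96 && (
  let v97 := mul v83 v96; ok v97 && (
  let v98 := scale ⟨74284471488, 0, 0, 0⟩ v46; ok v98 && (
  let v99 := scale ⟨0, 25918400256, 0, 0⟩ v47; ok v99 && (
  let v100 := add v98 v99; ok v100 && (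
  let v101 := scale ⟨3986098133376, 0, 0, 0⟩ v44; ok v101 && (
  let v102 := add v100 v101; ok v102 && (
  let v103 := cst ⟨298861408256, 0, 0, 0⟩; ok v103 && (
  let v104 := add v102 v103; ok v104 && (
  let v105 := add v97 v104; ok v105 && (
  let v106 := mul v83 v105; ok v106 && (
  let v107 := scale ⟨0, 97850629248, 0, 0⟩ v46; ok v107 && (
  let v108 := scale ⟨3519837952, 0, 0, 0⟩ v47; ok v108 && (
  let v109 := add v107 v108; ok v109 && (
  let v110 := scale ⟨20721881792, 0, 0, 0⟩ v48; ok v110 && (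
  let v111 := add v109 v110; ok v111 && (
  let v112 := scale ⟨0, 65524498647360, 0, 0⟩ v44; ok v112 && (
  let v113 := add v111 v112; ok v113 && (
  let v114 := cst ⟨989425754496, 0, 0, 0⟩; ok v114 && (
  let v115 := add v113 v114; ok v115 && (
  let v116 := add v106 v115; ok v116 && (
  let v117 := mul v83 v116; ok v117 && (
  let v118 := scale ⟨166316172992, 0, 0, 0⟩ v46; ok v118 && (
  let v119 := scale ⟨4545929728, 0, 0, 0⟩ v47; ok v119 && (
  let v120 := add v118 v119; ok v120 && (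
  let v121 := scale ⟨0, 9365605248, 0, 0⟩ v48; ok v121 && (
  let v122 := add v120 v121; ok v122 && (
  let v123 := scale ⟨90761655305728, 0, 0, 0⟩ v44; ok v123 && (
  let v124 := add v122 v123; ok v124 && (
  let v125 := scale ⟨20358049691520, 0, 0, 0⟩ v51; ok v125 && (
  let v126 := add v124 v125; ok v126 && (
  let v127 := cst ⟨1155342085120, 0, 0, 0⟩; ok v127 && (
  let v128 := add v126 v127; ok v128 && (
  let v129 := add v117 v128; ok v129 && (
  let v130 := mul v83 v129; ok v130 && (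
  let v131 := scale ⟨0, 156387150272, 0, 0⟩ v46; ok v131 && (
  let v132 := scale ⟨0, 10022283712, 0, 0⟩ v47; ok v132 && (
  let v133 := add v131 v132; ok v133 && (
  let v134 := scale ⟨5553115456, 0, 0, 0⟩ v48; ok v134 && (
  let v135 := add v133 v134; ok v135 && (
  let v136 := scale ⟨6001968896, 0, 0, 0⟩ v49; ok v136 && (
  let v137 := add v135 v136; ok v137 && (
  let v138 := scale ⟨0, 112759486939200, 0, 0⟩ v44; ok v138 && (
  let v139 := add v137 v138; ok v139 && (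
  let v140 := scale ⟨0, 17077069699392, 0, 0⟩ v51; ok v140 && (
  let v141 := add v139 v140; ok v141 && (
  let v142 := cst ⟨3692141056960, 0, 0, 0⟩; ok v142 && (
  let v143 := add v141 v142; ok v143 && (
  let v144 := add v130 v143; ok v144 && (
  let v145 := mul v83 v144; ok v145 && (
  let v146 := scale ⟨39949428096, 0, 0, 0⟩ v46; ok v146 && (
  let v147 := scale ⟨0, 690203712, 0, 0⟩ v47; ok v147 && (
  let v148 := add v146 v147; ok v148 && (
  let v149 := scale ⟨157076160, 0, 0, 0⟩ v48; ok v149 && (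
  let v150 := add v148 v149; ok v150 && (
  let v151 := scale ⟨0, 1857194816, 0, 0⟩ v49; ok v151 && (
  let v152 := add v150 v151; ok v152 && (
  let v153 := scale ⟨1409079296, 0, 0, 0⟩ v50; ok v153 && (
  let v154 := add v152 v153; ok v154 && (
  let v155 := scale ⟨46524960144512, 0, 0, 0⟩ v44; ok v155 && (
  let v156 := add v154 v155; ok v156 && (
  let v157 := scale ⟨4826699025664, 0, 0, 0⟩ v51; ok v157 && (
  let v158 := add v156 v157; ok v158 && (
  let v159 := scale ⟨96093992064, 0, 0, 0⟩ v52; ok v159 && (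
  let v160 := add v158 v159; ok v160 && (
  let v161 := scale ⟨0, 712856660625152, 0, 0⟩ v53; ok v161 && (
  let v162 := add v160 v161; ok v162 && (
  let v163 := cst ⟨256967838848, 0, 0, 0⟩; ok v163 && (
  let v164 := add v162 v163; ok v164 && (
  let v165 := mul v164 v10; ok v165 && (
  let v166 := add v145 v165; ok v166 && (
  let v167 := mul x0 x0; ok v167 && (
  let v168 := scale ⟨5703716569088, 0, 0, 0⟩ v167; ok v168 && (
  let v169 := cst ⟨1726576852992, 0, 0, 0⟩; ok v169 && (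
  let v170 := add v168 v169; ok v170 && (
  let v171 := scale ⟨4398046511104, 0, 0, 0⟩ v10; ok v171 && (
  let v172 := mul v83 v170; ok v172 && (
  let v173 := scale ⟨4398046511104, 0, 0, 0⟩ v172; ok v173 && (
  let v174 := add v171 v173; ok v174 && (
  let v175 := cst ⟨54975594496, 0, 0, 0⟩; ok v175 && (
  let v176 := mul v175 v174; ok v176 && (
  let v177 := scale ⟨549755813888, 0, 0, 0⟩ v174; ok v177 && (
  let v178 := add v177 v0; ok v178 && (
  isPos 3 v178 && (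
  let v179 := inv v178; ok v179 && (
  let v180 := mul v176 v179; ok v180 && (
  let v181 := neg v166; ok v181 && (
  let v182 := exp v181; ok v182 && (
  let v183 := add v182 v0; ok v183 && (
  isPos 3 v183 && (
  let v184 := log v183; ok v184 && (
  let v185 := mul v180 x3; ok v185 && (
  let v186 := sub v0 v185; ok v186 && (
  isPos 3 v186 && (
  let v187 := log v186; ok v187 && (
  let v188 := mul v182 v185; ok v188 && (
  let v189 := add v188 v0; ok v189 && (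
  isPos 3 v189 && (
  let v190 := log v189; ok v190 && (
  let v191 := sub v184 v190; ok v191 && (
  let v192 := add v10 v42; ok v192 && (
  let v193 := sub v191 v192; ok v193 && (
  let v194 := mul v193 x0; ok v194 && (
  let v195 := exp v194; ok v195 && (
  let v196 := sub v190 v187; ok v196 && (
  let v197 := add v196 v166; ok v197 && (
  let v198 := mul v197 x0; ok v198 && (
  let v199 := exp v198; ok v199 && (
  let v200 := mul v31 v31; ok v200 && (
  let v201 := scale ⟨274877906944, 0, 0, 0⟩ v200; ok v201 && (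
  let v202 := mul v167 v201; ok v202 && (
  let v203 := scale ⟨1649267441664, 0, 0, 0⟩ v202; ok v203 && (
  let v204 := add v203 v0; ok v204 && (
  let v205 := mul v170 v204; ok v205 && (
  let v206 := mul x2 v205; ok v206 && (
  let v207 := scale ⟨0, 0, 1099511627776, 0⟩ v206; ok v207 && (
  let v208 := mul v207 v207; ok v208 && (
  let v209 := sub v201 v208; ok v209 && (
  let v210 := mul v195 v195; ok v210 && (
  let v211 := mul v210 v209; ok v211 && (
  let v212 := mul v167 v211; ok v212 && (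
  let v213 := scale ⟨4398046511104, 0, 0, 0⟩ v212; ok v213 && (
  let v214 := sub v0 v213; ok v214 && (
  isPos 3 v214 && (
  let v215 := log v214; ok v215 && (
  let v216 := scale ⟨549755813888, 0, 0, 0⟩ v215; ok v216 && (
  let v217 := exp v216; ok v217 && (
  let v218 := mul x0 v210; ok v218 && (
  let v219 := mul v201 v199; ok v219 && (
  let v220 := scale ⟨2199023255552, 0, 0, 0⟩ v209; ok v220 && (
  let v221 := add v219 v220; ok v221 && (
  let v222 := mul v218 v221; ok v222 && (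
  let v223 := mul v207 v217; ok v223 && (
  let v224 := mul v195 v223; ok v224 && (
  let v225 := add v222 v224; ok v225 && (
  let v226 := mul v199 v225; ok v226 && (
  let v227 := scale ⟨4398046511104, 0, 0, 0⟩ v226; ok v227 && (
  let v228 := mul x0 v227; ok v228 && (
  let v229 := add v228 v0; ok v229 && (
  isPos 3 v229 && (
  let v230 := log v229; ok v230 && (
  let v231 := scale ⟨549755813888, 0, 0, 0⟩ v230; ok v231 && (
  let v232 := exp v231; ok v232 && (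
  let v233 := add v232 v0; ok v233 && (
  isPos 3 v233 && (
  let v234 := inv v233; ok v234 && (
  let v235 := mul v227 v234; ok v235 && (
  let v236 := scale ⟨549755813888, 0, 0, 0⟩ v36; ok v236 && (
  let v237 := sub v235 v236; ok v237 && (
  let v238 := cst ⟨10769630494720, 0, 0, 0⟩; ok v238 && (
  let v239 := add v37 v238; ok v239 && (
  isPos 3 v239 && (
  let v240 := mul v237 v237; ok v240 && (
  let v241 := sub v240 v37; ok v241 && (
  let v242 := inv v239; ok v242 && (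
  let v243 := mul v241 v242; ok v243 && (
  isLt v243 1099510579200 && (
  let v244 := mul x0 v195; ok v244 && (
  let v245 := mul v244 v207; ok v245 && (
  let v246 := scale ⟨2199023255552, 0, 0, 0⟩ v245; ok v246 && (
  let v247 := sub v217 v246; ok v247 && (
  isPos 3 v247 && (
  let v248 := add v13 v15; ok v248 && (
  let v249 := mul v207 v248; ok v249 && (
  let v250 := mul x0 v249; ok v250 && (
  let v251 := add v250 v20; ok v251 && (
  isPos 3 v251 && (
  let v252 := inv v251; ok v252 && (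
  let v253 := mul v20 v249; ok v253 && (
  let v254 := add v253 v38; ok v254 && (
  let v255 := mul v252 v254; ok v255 && (
  isPos 3 x0 && (
  let v256 := inv x0; ok v256 && (
  let v257 := sub v237 v255; ok v257 && (
  let v258 := mul v257 v256; ok v258 && (
  let v259 := add v249 v34; ok v259 && (
  let v260 := mul v17 v251; ok v260 && (
  let v261 := inv v259; ok v261 && (
  let v262 := mul v260 v261; ok v262 && (
  let v263 := mul v262 v258; ok v263 && (
  let v264 := mul x0 v263; ok v264 && (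
  let v265 := add v264 v0; ok v265 && (
  let v266 := scale ⟨32230670336, 0, 0, 0⟩ v46; ok v266 && (
  let v267 := scale ⟨4853858304, 0, 0, 0⟩ v47; ok v267 && (
  let v268 := add v266 v267; ok v268 && (
  let v269 := scale ⟨0, 299171840, 0, 0⟩ v48; ok v269 && (
  let v270 := add v268 v269; ok v270 && (
  let v271 := scale ⟨62790081642496, 0, 0, 0⟩ v44; ok v271 && (
  let v272 := add v270 v271; ok v272 && (
  let v273 := scale ⟨10954496606208, 0, 0, 0⟩ v51; ok v273 && (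
  let v274 := add v272 v273; ok v274 && (
  let v275 := cst ⟨547350052864, 0, 0, 0⟩; ok v275 && (
  let v276 := add v274 v275; ok v276 && (
  let v277 := scale ⟨2199023255552, 0, 0, 0⟩ v263; ok v277 && (
  let v278 := inv v265; ok v278 && (
  let v279 := mul v262 v278; ok v279 && (
  let v280 := mul v277 v279; ok v280 && (
  let v281 := mul v16 v16; ok v281 && (
  let v282 := inv v276; ok v282 && (
  let v283 := mul v281 v282; ok v283 && (
  let v284 := mul v280 v283; ok v284 && (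
  isLt v284 1099510579200 && (
  let v285 := mul x0 v237; ok v285 && (
  let v286 := add v285 v20; ok v286 && (
  isPos 3 v286 && (
  let v287 := inv v286; ok v287 && (
  let v288 := mul v17 v287; ok v288 && (
  let v289 := sub v237 v34; ok v289 && (
  let v290 := add v17 v287; ok v290 && (
  let v291 := mul v289 v290; ok v291 && (
  let v292 := mul v288 v291; ok v292 && (
  let v293 := mul v17 v34; ok v293 && (
  let v294 := scale ⟨2199023255552, 0, 0, 0⟩ v293; ok v294 && (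
  let v295 := add v292 v294; ok v295 && (
  let v296 := scale ⟨0, 320851236880384, 0, 0⟩ v44; ok v296 && (
  let v297 := cst ⟨0, 3740379643904, 0, 0⟩; ok v297 && (
  let v298 := add v296 v297; ok v298 && (
  let v299 := sub v295 v298; ok v299 && (
  isPos 3 v299 && (
  let v300 := inv v299; ok v300 && (
  let v301 := scale ⟨31362867265536, 0, 0, 0⟩ v300; ok v301 && (
  let v302 := add v299 v301; ok v302 && (
  isPos 3 v302 && (
  let v303 := inv v302; ok v303 && (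
  let v304 := scale ⟨23192718464, 0, 0, 0⟩ v46; ok v304 && (
  let v305 := scale ⟨0, 3990710828928, 0, 0⟩ v44; ok v305 && (
  let v306 := add v304 v305; ok v306 && (
  let v307 := cst ⟨0, 125416087424, 0, 0⟩; ok v307 && (
  let v308 := add v306 v307; ok v308 && (
  let v309 := scale ⟨0, 83055982336, 0, 0⟩ v46; ok v309 && (
  let v310 := scale ⟨14145812554816, 0, 0, 0⟩ v44; ok v310 && (
  let v311 := add v309 v310; ok v311 && (
  let v312 := cst ⟨282862252928, 0, 0, 0⟩; ok v312 && (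
  let v313 := add v311 v312; ok v313 && (
  let v314 := mul v300 v313; ok v314 && (
  let v315 := add v308 v314; ok v315 && (
  let v316 := mul v315 v303; ok v316 && (
  let v317 := scale ⟨1984, 0, 0, 0⟩ v295; ok v317 && (
  let v318 := cst ⟨0, 278144, 0, 0⟩; ok v318 && (
  let v319 := add v317 v318; ok v319 && (
  let v320 := mul v295 v319; ok v320 && (
  let v321 := add v320 v78; ok v321 && (
  let v322 := mul v295 v321; ok v322 && (
  let v323 := add v322 v73; ok v323 && (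
  let v324 := mul v295 v323; ok v324 && (
  let v325 := add v316 v66; ok v325 && (
  let v326 := add v324 v325; ok v326 && (
  let v327 := mul v292 v326; ok v327 && (
  let v328 := add v327 v21; ok v328 && (
  let v329 := neg v328; ok v329 && (
  let v330 := exp v329; ok v330 && (
  let v331 := add v330 v0; ok v331 && (
  isPos 3 v331 && (
  let v332 := log v331; ok v332 && (
  let v333 := add v166 v184; ok v333 && (
  let v334 := sub v333 v332; ok v334 && (
  let v335 := scale ⟨549755813888, 0, 0, 0⟩ v230; ok v335 && (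
  let v336 := mul v335 v256; ok v336 && (
  let v337 := sub v334 v336; ok v337 && (
  let v338 := exp v337; ok v338 && (
  let v339 := scale ⟨2066284544, 0, 0, 0⟩ v83; ok v339 && (
  let v340 := cst ⟨1268711424, 0, 0, 0⟩; ok v340 && (
  let v341 := add v339 v340; ok v341 && (
  let v342 := mul v83 v341; ok v342 && (
  let v343 := cst ⟨6379929600, 0, 0, 0⟩; ok v343 && (
  let v344 := add v342 v343; ok v344 && (
  let v345 := mul v83 v344; ok v345 && (
  let v346 := scale ⟨536215552, 0, 0, 0⟩ v46; ok v346 && (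
  let v347 := scale ⟨1219543171072, 0, 0, 0⟩ v44; ok v347 && (
  let v348 := add v346 v347; ok v348 && (
  let v349 := cst ⟨4439539712, 0, 0, 0⟩; ok v349 && (
  let v350 := add v348 v349; ok v350 && (
  let v351 := add v345 v350; ok v351 && (
  let v352 := mul v83 v351; ok v352 && (
  let v353 := scale ⟨0, 1321336832, 0, 0⟩ v46; ok v353 && (
  let v354 := scale ⟨3024046850048, 0, 0, 0⟩ v44; ok v354 && (
  let v355 := add v353 v354; ok v355 && (
  let v356 := cst ⟨24759238656, 0, 0, 0⟩; ok v356 && (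
  let v357 := add v355 v356; ok v357 && (
  let v358 := add v352 v357; ok v358 && (
  let v359 := mul v83 v358; ok v359 && (
  let v360 := scale ⟨4633264128, 0, 0, 0⟩ v46; ok v360 && (
  let v361 := scale ⟨43384832, 0, 0, 0⟩ v47; ok v361 && (
  let v362 := add v360 v361; ok v362 && (
  let v363 := scale ⟨5415904215040, 0, 0, 0⟩ v44; ok v363 && (
  let v364 := add v362 v363; ok v364 && (
  let v365 := scale ⟨1093019303936, 0, 0, 0⟩ v51; ok v365 && (
  let v366 := add v364 v365; ok v366 && (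
  let v367 := scale ⟨366726176178176, 0, 0, 0⟩ v53; ok v367 && (
  let v368 := add v366 v367; ok v368 && (
  let v369 := cst ⟨1113994559488, 0, 0, 0⟩; ok v369 && (
  let v370 := add v368 v369; ok v370 && (
  let v371 := add v359 v370; ok v371 && (
  let v372 := inv v176; ok v372 && (
  let v373 := mul v372 v178; ok v373 && (
  let v374 := scale ⟨329907175424, 0, 0, 0⟩ v237; ok v374 && (
  let v375 := add v374 v0; ok v375 && (
  isPos 3 v375 && (
  let v376 := scale ⟨2199023255552, 0, 0, 0⟩ v12; ok v376 && (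
  let v377 := neg v376; ok v377 && (
  let v378 := exp v377; ok v378 && (
  let v379 := scale ⟨8796110848, 0, 0, 0⟩ v378; ok v379 && (
  let v380 := scale ⟨2199023255552, 0, 0, 0⟩ v379; ok v380 && (
  let v381 := add v237 v34; ok v381 && (
  let v382 := mul v380 v381; ok v382 && (
  let v383 := inv v375; ok v383 && (
  let v384 := mul v382 v383; ok v384 && (
  let v385 := cst ⟨0, 0, 0, 0⟩; ok v385 && (
  let v386 := mul v371 v338; ok v386 && (
  let v387 := mul v386 v330; ok v387 && (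
  let v388 := mul v384 v373; ok v388 && (
  let v389 := mul v387 v388; ok v389 && (
  let v390 := rball v385 v389; ok v390 && (
  let v391 := sub v0 v371; ok v391 && (
  let v392 := mul x3 v391; ok v392 && (
  let v393 := sub v0 v338; ok v393 && (
  let v394 := mul v393 v373; ok v394 && (
  let v395 := mul v371 v394; ok v395 && (
  let v396 := add v392 v395; ok v396 && (
  let v397 := add v396 v390; ok v397 && (
  isLt v397 1099510579200 && (
  true)))))))))))))))))))))))))))))))))))))))))))))))))))))))))))))))))))))))))))))))))))))))))))))))))))))))))))))))))))))))))))))))))))))))))))))))))))))))))))))))))))))))))))))))))))))))))))))))))))))))))))))))))))))))))))))))))))))))))))))))))))))))))))))))))))))))))))))))))))))))))))))))))))))))))))))))))))))))))))))))))))))))))))))))))))))))))))))))))))))))))))))))))))))))))))))))))))))))))))))))))))))))))))))))))))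
  | _ => false

set_option maxRecDepth 1000000 in
theorem c_Z_0_eq (X : XOps) (m : List X.O.α)
    (h : c_Z_0 X.O.cst X.O.add X.O.sub X.O.mul X.O.scale X.O.neg X.O.inv X.O.exp X.O.log X.O.ok
      X.O.isPos X.O.isLt X.ball X.rball m = true) :
    runX X 3 p_Z_0 m = true := by
  match m, h with
  | [x0, x1, x2, x3], h => exact h

abbrev gZ : List (List Op) := [p_Z_0]

noncomputable abbrev kZ : List (List xE.O.α → Bool) := [c_Z_0 xE.O.cst xE.O.add xE.O.sub xE.O.mul xE.O.scale xE.O.neg xE.O.inv xE.O.exp xE.O.log xE.O.ok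
      xE.O.isPos xE.O.isLt xE.ball xE.rball]

theorem kZ_eq : List.Forall₂ (fun (ops : List Op) (chk : List xE.O.α → Bool) =>
    ∀ m, chk m = true → runX xE 3 ops m = true) gZ kZ :=
  List.Forall₂.cons (c_Z_0_eq xE) List.Forall₂.nil

theorem gZ_eq : gZ = [comp (PS0 tab) ρ4 4] := by decide +kernel

def p_T_0 : List Op := [
  .const ⟨1099511627776, 0, 0, 0⟩,
  .scale ⟨2251799813685248, 0, 0, 0⟩ 1,
  .scale ⟨46151436861440, 0, 0, 0⟩ 0,
  .const ⟨0, 1836253137862656, 0, 0⟩,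
  .add 1 0,
  .mul 0 5,
  .const ⟨8251702771712, 0, 0, 0⟩,
  .add 1 0,
  .mul 9 0,
  .const ⟨8108898254848, 0, 0, 0⟩,
  .add 1 0,
  .mul 11 0,
  .scale ⟨2199023255552, 0, 0, 0⟩ 0,
  .exp 1,
  .neg 2,
  .exp 0,
  .mul 2 2,
  .mul 1 1,
  .mul 0 0,
  .add 2 1,
  .scale ⟨549755813888, 0, 0, 0⟩ 0,
  .scale ⟨2199023255552, 0, 0, 0⟩ 10,
  .mul 10 10,
  .lt 0 68719476736,
  .scale ⟨9162596898, 0, 0, 0⟩ 0,
  .const ⟨183251937962, 0, 0, 0⟩,
  .add 1 0,
  .mul 0 3,
  .const ⟨1099511627776, 0, 0, 0⟩,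
  .add 1 0,
  .const ⟨65536, 0, 0, 0⟩,
  .rball 1 0,
  .mul 9 0,
  .add 18 16,
  .scale ⟨549755813888, 0, 0, 0⟩ 0,
  .mul 2 0,
  .mul 3 3,
  .mul 36 0,
  .mul 2 2,
  .mul 38 0,
  .neg 17,
  .exp 0,
  .add 0 40,
  .pos 0,
  .log 0,
  .const ⟨6408896512, 0, 0, 0⟩,
  .sub 44 0,
  .const ⟨8486855376896, 0, 0, 0⟩,
  .sub 35 0,
  .mul 0 0,
  .mul 0 1,
  .mul 0 2,
  .mul 0 3,
  .mul 6 4,
  .mul 7 4,
  .mul 8 8,
  .const ⟨714575183872, 0, 0, 0⟩,
  .scale ⟨0, 0, 1099511627776, 0⟩ 0,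
  .scale ⟨549755813888, 0, 0, 0⟩ 0,
  .add 0 56,
  .inv 0,
  .mul 3 0,
  .scale ⟨0, 106530011456, 0, 0⟩ 0,
  .const ⟨96245984640, 0, 0, 0⟩,
  .add 1 0,
  .mul 3 0,
  .scale ⟨98350321600, 0, 0, 0⟩ 17,
  .const ⟨0, 19981245440, 0, 0⟩,
  .add 1 0,
  .add 3 0,
  .mul 8 0,
  .scale ⟨0, 54681183616, 0, 0⟩ 22,
  .const ⟨234513246464, 0, 0, 0⟩,
  .add 1 0,
  .add 3 0,
  .mul 13 0,
  .scale ⟨74284471488, 0, 0, 0⟩ 27,
  .scale ⟨0, 25918400256, 0, 0⟩ 27,
  .add 1 0,
  .scale ⟨3986098133376, 0, 0, 0⟩ 32,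
  .add 1 0,
  .const ⟨298861408256, 0, 0, 0⟩,
  .add 1 0,
  .add 7 0,
  .mul 22 0,
  .scale ⟨0, 97850629248, 0, 0⟩ 36,
  .scale ⟨3519837952, 0, 0, 0⟩ 36,
  .add 1 0,
  .scale ⟨20721881792, 0, 0, 0⟩ 37,
  .add 1 0,
  .scale ⟨0, 65524498647360, 0, 0⟩ 43,
  .add 1 0,
  .const ⟨989425754496, 0, 0, 0⟩,
  .add 1 0,
  .add 9 0,
  .mul 33 0,
  .scale ⟨166316172992, 0, 0, 0⟩ 47,
  .scale ⟨4545929728, 0, 0, 0⟩ 47,
  .add 1 0,
  .scale ⟨0, 9365605248, 0, 0⟩ 48,
  .add 1 0,
  .scale ⟨90761655305728, 0, 0, 0⟩ 54,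
  .add 1 0,
  .scale ⟨20358049691520, 0, 0, 0⟩ 49,
  .add 1 0,
  .const ⟨1155342085120, 0, 0, 0⟩,
  .add 1 0,
  .add 11 0,
  .mul 46 0,
  .scale ⟨0, 156387150272, 0, 0⟩ 60,
  .scale ⟨0, 10022283712, 0, 0⟩ 60,
  .add 1 0,
  .scale ⟨5553115456, 0, 0, 0⟩ 61,
  .add 1 0,
  .scale ⟨6001968896, 0, 0, 0⟩ 62,
  .add 1 0,
  .scale ⟨0, 112759486939200, 0, 0⟩ 69,
  .add 1 0,
  .scale ⟨0, 17077069699392, 0, 0⟩ 64,
  .add 1 0,
  .const ⟨3692141056960, 0, 0, 0⟩,
  .add 1 0,
  .add 13 0,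
  .mul 61 0,
  .scale ⟨39949428096, 0, 0, 0⟩ 75,
  .scale ⟨0, 690203712, 0, 0⟩ 75,
  .add 1 0,
  .scale ⟨157076160, 0, 0, 0⟩ 76,
  .add 1 0,
  .scale ⟨0, 1857194816, 0, 0⟩ 77,
  .add 1 0,
  .scale ⟨1409079296, 0, 0, 0⟩ 78,
  .add 1 0,
  .scale ⟨46524960144512, 0, 0, 0⟩ 86,
  .add 1 0,
  .scale ⟨4826699025664, 0, 0, 0⟩ 81,
  .add 1 0,
  .scale ⟨96093992064, 0, 0, 0⟩ 82,
  .add 1 0,
  .scale ⟨0, 712856660625152, 0, 0⟩ 83,
  .add 1 0,
  .const ⟨256967838848, 0, 0, 0⟩,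
  .add 1 0,
  .mul 0 130,
  .add 20 0,
  .mul 143 143,
  .scale ⟨5703716569088, 0, 0, 0⟩ 0,
  .const ⟨1726576852992, 0, 0, 0⟩,
  .add 1 0,
  .scale ⟨4398046511104, 0, 0, 0⟩ 136,
  .mul 88 1,
  .scale ⟨4398046511104, 0, 0, 0⟩ 0,
  .add 2 0,
  .const ⟨54975594496, 0, 0, 0⟩,
  .mul 0 1,
  .scale ⟨549755813888, 0, 0, 0⟩ 2,
  .add 0 153,
  .pos 0,
  .inv 0,
  .mul 3 0,
  .neg 14,
  .exp 0,
  .add 0 158,
  .pos 0,
  .log 0,
  .mul 4 163,
  .sub 161 0,
  .pos 0,
  .log 0,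
  .mul 5 2,
  .add 0 164,
  .pos 0,
  .log 0,
  .sub 6 0,
  .add 157 125,
  .sub 1 0,
  .mul 0 170,
  .exp 0,
  .sub 5 8,
  .add 0 30,
  .mul 0 174,
  .exp 0,
  .mul 144 144,
  .scale ⟨274877906944, 0, 0, 0⟩ 0,
  .mul 34 0,
  .scale ⟨1649267441664, 0, 0, 0⟩ 0,
  .add 0 179,
  .mul 34 0,
  .mul 127 0,
  .scale ⟨0, 0, 1099511627776, 0⟩ 0,
  .mul 0 0,
  .sub 7 0,
  .mul 14 14,
  .mul 0 1,
  .mul 44 0,
  .scale ⟨4398046511104, 0, 0, 0⟩ 0,
  .sub 189 0,
  .pos 0,
  .log 0,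
  .scale ⟨549755813888, 0, 0, 0⟩ 0,
  .exp 0,
  .mul 194 22,
  .mul 0 11,
  .scale ⟨2199023255552, 0, 0, 0⟩ 0,
  .sub 3 0,
  .pos 0,
  .pos 198,
  .inv 198,
  .const ⟨549755813888, 0, 0, 0⟩,
  .sub 33 39,
  .log 3,
  .mul 0 3,
  .add 2 0,
  .exp 0,
  .sub 5 0,
  .pos 0]

set_option maxRecDepth 1000000 in
noncomputable def c_T_0 {α : Type} (cst : Z → α) (add sub mul : α → α → α) (scale : Z → α → α)
    (neg inv exp log : α → α) (ok : α → Bool) (isPos : Nat → α → Bool) (isLt : α → Nat → Bool)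
    (ball : Nat → α → α) (rball : α → α → α) : List α → Bool
  | [x0, x1, x2] =>
  let v0 := cst ⟨1099511627776, 0, 0, 0⟩; ok v0 && (
  let v1 := scale ⟨2251799813685248, 0, 0, 0⟩ x0; ok v1 && (
  let v2 := scale ⟨46151436861440, 0, 0, 0⟩ v1; ok v2 && (
  let v3 := cst ⟨0, 1836253137862656, 0, 0⟩; ok v3 && (
  let v4 := add v2 v3; ok v4 && (
  let v5 := mul v4 x0; ok v5 && (
  let v6 := cst ⟨8251702771712, 0, 0, 0⟩; ok v6 && (
  let v7 := add v5 v6; ok v7 && (
  let v8 := mul x1 v7; ok v8 && (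
  let v9 := cst ⟨8108898254848, 0, 0, 0⟩; ok v9 && (
  let v10 := add v8 v9; ok v10 && (
  let v11 := mul x0 v10; ok v11 && (
  let v12 := scale ⟨2199023255552, 0, 0, 0⟩ v11; ok v12 && (
  let v13 := exp v11; ok v13 && (
  let v14 := neg v11; ok v14 && (
  let v15 := exp v14; ok v15 && (
  let v16 := mul v13 v13; ok v16 && (
  let v17 := mul v15 v15; ok v17 && (
  let v18 := mul v17 v17; ok v18 && (
  let v19 := add v16 v17; ok v19 && (
  let v20 := scale ⟨549755813888, 0, 0, 0⟩ v19; ok v20 && (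
  let v21 := scale ⟨2199023255552, 0, 0, 0⟩ v10; ok v21 && (
  let v22 := mul v11 v11; ok v22 && (
  isLt v22 68719476736 && (
  let v23 := scale ⟨9162596898, 0, 0, 0⟩ v22; ok v23 && (
  let v24 := cst ⟨183251937962, 0, 0, 0⟩; ok v24 && (
  let v25 := add v23 v24; ok v25 && (
  let v26 := mul v25 v22; ok v26 && (
  let v27 := cst ⟨1099511627776, 0, 0, 0⟩; ok v27 && (
  let v28 := add v26 v27; ok v28 && (
  let v29 := cst ⟨65536, 0, 0, 0⟩; ok v29 && (
  let v30 := rball v28 v29; ok v30 && (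
  let v31 := mul v21 v30; ok v31 && (
  let v32 := add v13 v15; ok v32 && (
  let v33 := scale ⟨549755813888, 0, 0, 0⟩ v32; ok v33 && (
  let v34 := mul v31 v33; ok v34 && (
  let v35 := mul v31 v31; ok v35 && (
  let v36 := mul x0 v35; ok v36 && (
  let v37 := mul v34 v34; ok v37 && (
  let v38 := mul x0 v37; ok v38 && (
  let v39 := neg v21; ok v39 && (
  let v40 := exp v39; ok v40 && (
  let v41 := add v40 v0; ok v41 && (
  isPos 2 v41 && (
  let v42 := log v41; ok v42 && (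
  let v43 := cst ⟨6408896512, 0, 0, 0⟩; ok v43 && (
  let v44 := sub x0 v43; ok v44 && (
  let v45 := cst ⟨8486855376896, 0, 0, 0⟩; ok v45 && (
  let v46 := sub v10 v45; ok v46 && (
  let v47 := mul v46 v46; ok v47 && (
  let v48 := mul v47 v46; ok v48 && (
  let v49 := mul v48 v46; ok v49 && (
  let v50 := mul v49 v46; ok v50 && (
  let v51 := mul v44 v46; ok v51 && (
  let v52 := mul v44 v47; ok v52 && (
  let v53 := mul v44 v44; ok v53 && (
  let v54 := cst ⟨714575183872, 0, 0, 0⟩; ok v54 && (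
  let v55 := scale ⟨0, 0, 1099511627776, 0⟩ v54; ok v55 && (
  let v56 := scale ⟨549755813888, 0, 0, 0⟩ v55; ok v56 && (
  let v57 := add v56 v0; ok v57 && (
  let v58 := inv v57; ok v58 && (
  let v59 := mul v55 v58; ok v59 && (
  let v60 := scale ⟨0, 106530011456, 0, 0⟩ v59; ok v60 && (
  let v61 := cst ⟨96245984640, 0, 0, 0⟩; ok v61 && (
  let v62 := add v60 v61; ok v62 && (
  let v63 := mul v59 v62; ok v63 && (
  let v64 := scale ⟨98350321600, 0, 0, 0⟩ v46; ok v64 && (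
  let v65 := cst ⟨0, 19981245440, 0, 0⟩; ok v65 && (
  let v66 := add v64 v65; ok v66 && (
  let v67 := add v63 v66; ok v67 && (
  let v68 := mul v59 v67; ok v68 && (
  let v69 := scale ⟨0, 54681183616, 0, 0⟩ v46; ok v69 && (
  let v70 := cst ⟨234513246464, 0, 0, 0⟩; ok v70 && (
  let v71 := add v69 v70; ok v71 && (
  let v72 := add v68 v71; ok v72 && (
  let v73 := mul v59 v72; ok v73 && (
  let v74 := scale ⟨74284471488, 0, 0, 0⟩ v46; ok v74 && (
  let v75 := scale ⟨0, 25918400256, 0, 0⟩ v47; ok v75 && (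
  let v76 := add v74 v75; ok v76 && (
  let v77 := scale ⟨3986098133376, 0, 0, 0⟩ v44; ok v77 && (
  let v78 := add v76 v77; ok v78 && (
  let v79 := cst ⟨298861408256, 0, 0, 0⟩; ok v79 && (
  let v80 := add v78 v79; ok v80 && (
  let v81 := add v73 v80; ok v81 && (
  let v82 := mul v59 v81; ok v82 && (
  let v83 := scale ⟨0, 97850629248, 0, 0⟩ v46; ok v83 && (
  let v84 := scale ⟨3519837952, 0, 0, 0⟩ v47; ok v84 && (
  let v85 := add v83 v84; ok v85 && (
  let v86 := scale ⟨20721881792, 0, 0, 0⟩ v48; ok v86 && (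
  let v87 := add v85 v86; ok v87 && (
  let v88 := scale ⟨0, 65524498647360, 0, 0⟩ v44; ok v88 && (
  let v89 := add v87 v88; ok v89 && (
  let v90 := cst ⟨989425754496, 0, 0, 0⟩; ok v90 && (
  let v91 := add v89 v90; ok v91 && (
  let v92 := add v82 v91; ok v92 && (
  let v93 := mul v59 v92; ok v93 && (
  let v94 := scale ⟨166316172992, 0, 0, 0⟩ v46; ok v94 && (
  let v95 := scale ⟨4545929728, 0, 0, 0⟩ v47; ok v95 && (
  let v96 := add v94 v95; ok v96 && (
  let v97 := scale ⟨0, 9365605248, 0, 0⟩ v48; ok v97 && (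
  let v98 := add v96 v97; ok v98 && (
  let v99 := scale ⟨90761655305728, 0, 0, 0⟩ v44; ok v99 && (
  let v100 := add v98 v99; ok v100 && (
  let v101 := scale ⟨20358049691520, 0, 0, 0⟩ v51; ok v101 && (
  let v102 := add v100 v101; ok v102 && (
  let v103 := cst ⟨1155342085120, 0, 0, 0⟩; ok v103 && (
  let v104 := add v102 v103; ok v104 && (
  let v105 := add v93 v104; ok v105 && (
  let v106 := mul v59 v105; ok v106 && (
  let v107 := scale ⟨0, 156387150272, 0, 0⟩ v46; ok v107 && (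
  let v108 := scale ⟨0, 10022283712, 0, 0⟩ v47; ok v108 && (
  let v109 := add v107 v108; ok v109 && (
  let v110 := scale ⟨5553115456, 0, 0, 0⟩ v48; ok v110 && (
  let v111 := add v109 v110; ok v111 && (
  let v112 := scale ⟨6001968896, 0, 0, 0⟩ v49; ok v112 && (
  let v113 := add v111 v112; ok v113 && (
  let v114 := scale ⟨0, 112759486939200, 0, 0⟩ v44; ok v114 && (
  let v115 := add v113 v114; ok v115 && (
  let v116 := scale ⟨0, 17077069699392, 0, 0⟩ v51; ok v116 && (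
  let v117 := add v115 v116; ok v117 && (
  let v118 := cst ⟨3692141056960, 0, 0, 0⟩; ok v118 && (
  let v119 := add v117 v118; ok v119 && (
  let v120 := add v106 v119; ok v120 && (
  let v121 := mul v59 v120; ok v121 && (
  let v122 := scale ⟨39949428096, 0, 0, 0⟩ v46; ok v122 && (
  let v123 := scale ⟨0, 690203712, 0, 0⟩ v47; ok v123 && (
  let v124 := add v122 v123; ok v124 && (
  let v125 := scale ⟨157076160, 0, 0, 0⟩ v48; ok v125 && (
  let v126 := add v124 v125; ok v126 && (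
  let v127 := scale ⟨0, 1857194816, 0, 0⟩ v49; ok v127 && (
  let v128 := add v126 v127; ok v128 && (
  let v129 := scale ⟨1409079296, 0, 0, 0⟩ v50; ok v129 && (
  let v130 := add v128 v129; ok v130 && (
  let v131 := scale ⟨46524960144512, 0, 0, 0⟩ v44; ok v131 && (
  let v132 := add v130 v131; ok v132 && (
  let v133 := scale ⟨4826699025664, 0, 0, 0⟩ v51; ok v133 && (
  let v134 := add v132 v133; ok v134 && (
  let v135 := scale ⟨96093992064, 0, 0, 0⟩ v52; ok v135 && (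
  let v136 := add v134 v135; ok v136 && (
  let v137 := scale ⟨0, 712856660625152, 0, 0⟩ v53; ok v137 && (
  let v138 := add v136 v137; ok v138 && (
  let v139 := cst ⟨256967838848, 0, 0, 0⟩; ok v139 && (
  let v140 := add v138 v139; ok v140 && (
  let v141 := mul v140 v10; ok v141 && (
  let v142 := add v121 v141; ok v142 && (
  let v143 := mul x0 x0; ok v143 && (
  let v144 := scale ⟨5703716569088, 0, 0, 0⟩ v143; ok v144 && (
  let v145 := cst ⟨1726576852992, 0, 0, 0⟩; ok v145 && (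
  let v146 := add v144 v145; ok v146 && (
  let v147 := scale ⟨4398046511104, 0, 0, 0⟩ v10; ok v147 && (
  let v148 := mul v59 v146; ok v148 && (
  let v149 := scale ⟨4398046511104, 0, 0, 0⟩ v148; ok v149 && (
  let v150 := add v147 v149; ok v150 && (
  let v151 := cst ⟨54975594496, 0, 0, 0⟩; ok v151 && (
  let v152 := mul v151 v150; ok v152 && (
  let v153 := scale ⟨549755813888, 0, 0, 0⟩ v150; ok v153 && (
  let v154 := add v153 v0; ok v154 && (
  isPos 2 v154 && (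
  let v155 := inv v154; ok v155 && (
  let v156 := mul v152 v155; ok v156 && (
  let v157 := neg v142; ok v157 && (
  let v158 := exp v157; ok v158 && (
  let v159 := add v158 v0; ok v159 && (
  isPos 2 v159 && (
  let v160 := log v159; ok v160 && (
  let v161 := mul v156 x2; ok v161 && (
  let v162 := sub v0 v161; ok v162 && (
  isPos 2 v162 && (
  let v163 := log v162; ok v163 && (
  let v164 := mul v158 v161; ok v164 && (
  let v165 := add v164 v0; ok v165 && (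
  isPos 2 v165 && (
  let v166 := log v165; ok v166 && (
  let v167 := sub v160 v166; ok v167 && (
  let v168 := add v10 v42; ok v168 && (
  let v169 := sub v167 v168; ok v169 && (
  let v170 := mul v169 x0; ok v170 && (
  let v171 := exp v170; ok v171 && (
  let v172 := sub v166 v163; ok v172 && (
  let v173 := add v172 v142; ok v173 && (
  let v174 := mul v173 x0; ok v174 && (
  let v175 := exp v174; ok v175 && (
  let v176 := mul v31 v31; ok v176 && (
  let v177 := scale ⟨274877906944, 0, 0, 0⟩ v176; ok v177 && (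
  let v178 := mul v143 v177; ok v178 && (
  let v179 := scale ⟨1649267441664, 0, 0, 0⟩ v178; ok v179 && (
  let v180 := add v179 v0; ok v180 && (
  let v181 := mul v146 v180; ok v181 && (
  let v182 := mul v54 v181; ok v182 && (
  let v183 := scale ⟨0, 0, 1099511627776, 0⟩ v182; ok v183 && (
  let v184 := mul v183 v183; ok v184 && (
  let v185 := sub v177 v184; ok v185 && (
  let v186 := mul v171 v171; ok v186 && (
  let v187 := mul v186 v185; ok v187 && (
  let v188 := mul v143 v187; ok v188 && (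
  let v189 := scale ⟨4398046511104, 0, 0, 0⟩ v188; ok v189 && (
  let v190 := sub v0 v189; ok v190 && (
  isPos 2 v190 && (
  let v191 := log v190; ok v191 && (
  let v192 := scale ⟨549755813888, 0, 0, 0⟩ v191; ok v192 && (
  let v193 := exp v192; ok v193 && (
  let v194 := mul x0 v171; ok v194 && (
  let v195 := mul v194 v183; ok v195 && (
  let v196 := scale ⟨2199023255552, 0, 0, 0⟩ v195; ok v196 && (
  let v197 := sub v193 v196; ok v197 && (
  isPos 2 v197 && (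
  isPos 2 x0 && (
  let v198 := inv x0; ok v198 && (
  let v199 := cst ⟨549755813888, 0, 0, 0⟩; ok v199 && (
  let v200 := sub v166 v160; ok v200 && (
  let v201 := log v197; ok v201 && (
  let v202 := mul v201 v198; ok v202 && (
  let v203 := add v200 v202; ok v203 && (
  let v204 := exp v203; ok v204 && (
  let v205 := sub v199 v204; ok v205 && (
  isPos 2 v205 && (
  true))))))))))))))))))))))))))))))))))))))))))))))))))))))))))))))))))))))))))))))))))))))))))))))))))))))))))))))))))))))))))))))))))))))))))))))))))))))))))))))))))))))))))))))))))))))))))))))))))))))))))))))))))))))))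
  | _ => false

set_option maxRecDepth 1000000 in
theorem c_T_0_eq (X : XOps) (m : List X.O.α)
    (h : c_T_0 X.O.cst X.O.add X.O.sub X.O.mul X.O.scale X.O.neg X.O.inv X.O.exp X.O.log X.O.ok
      X.O.isPos X.O.isLt X.ball X.rball m = true) :
    runX X 2 p_T_0 m = true := by
  match m, h with
  | [x0, x1, x2], h => exact h

abbrev gT : List (List Op) := [p_T_0]

noncomputable abbrev kT : List (List xE.O.α → Bool) := [c_T_0 xE.O.cst xE.O.add xE.O.sub xE.O.mul xE.O.scale xE.O.neg xE.O.inv xE.O.exp xE.O.log xE.O.ok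
      xE.O.isPos xE.O.isLt xE.ball xE.rball]

theorem kT_eq : List.Forall₂ (fun (ops : List Op) (chk : List xE.O.α → Bool) =>
    ∀ m, chk m = true → runX xE 2 ops m = true) gT kT :=
  List.Forall₂.cons (c_T_0_eq xE) List.Forall₂.nil

theorem gT_eq : gT = [comp (PST tab 714575183872) ρ3 3] := by decide +kernel

def p_S_0 : List Op := [
  .const ⟨1099511627776, 0, 0, 0⟩,
  .scale ⟨2251799813685248, 0, 0, 0⟩ 1,
  .scale ⟨46151436861440, 0, 0, 0⟩ 0,
  .const ⟨0, 1836253137862656, 0, 0⟩,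
  .add 1 0,
  .mul 0 5,
  .const ⟨8251702771712, 0, 0, 0⟩,
  .add 1 0,
  .mul 9 0,
  .const ⟨8108898254848, 0, 0, 0⟩,
  .add 1 0,
  .mul 11 0,
  .exp 0,
  .neg 1,
  .exp 0,
  .mul 3 3,
  .lt 0 68719476736,
  .scale ⟨9162596898, 0, 0, 0⟩ 0,
  .const ⟨183251937962, 0, 0, 0⟩,
  .add 1 0,
  .mul 0 3,
  .const ⟨1099511627776, 0, 0, 0⟩,
  .add 1 0,
  .const ⟨65536, 0, 0, 0⟩,
  .rball 1 0,
  .scale ⟨2199023255552, 0, 0, 0⟩ 13,
  .mul 0 1,
  .add 13 11,
  .scale ⟨549755813888, 0, 0, 0⟩ 0,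
  .mul 2 0,
  .mul 0 0,
  .const ⟨6408896512, 0, 0, 0⟩,
  .sub 31 0,
  .const ⟨8486855376896, 0, 0, 0⟩,
  .sub 22 0,
  .mul 0 0,
  .mul 0 1,
  .mul 4 2,
  .scale ⟨32230670336, 0, 0, 0⟩ 3,
  .scale ⟨4853858304, 0, 0, 0⟩ 3,
  .add 1 0,
  .scale ⟨0, 299171840, 0, 0⟩ 4,
  .add 1 0,
  .scale ⟨62790081642496, 0, 0, 0⟩ 10,
  .add 1 0,
  .scale ⟨10954496606208, 0, 0, 0⟩ 7,
  .add 1 0,
  .const ⟨547350052864, 0, 0, 0⟩,
  .add 1 0,
  .pos 0,
  .const ⟨10769630494720, 0, 0, 0⟩,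
  .add 19 0,
  .pos 0,
  .const ⟨6408896512, 0, 0, 0⟩,
  .sub 51 0,
  .const ⟨8486855376896, 0, 0, 0⟩,
  .sub 42 0,
  .mul 0 0,
  .mul 0 1,
  .mul 4 2,
  .mul 42 42,
  .mul 0 0,
  .scale ⟨4398046511104, 0, 0, 0⟩ 47,
  .neg 0,
  .exp 0,
  .scale ⟨32230670336, 0, 0, 0⟩ 8,
  .scale ⟨4853858304, 0, 0, 0⟩ 8,
  .add 1 0,
  .scale ⟨0, 299171840, 0, 0⟩ 9,
  .add 1 0,
  .scale ⟨62790081642496, 0, 0, 0⟩ 15,
  .add 1 0,
  .scale ⟨10954496606208, 0, 0, 0⟩ 12,
  .add 1 0,
  .const ⟨547350052864, 0, 0, 0⟩,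
  .add 1 0,
  .mul 73 44,
  .mul 0 1,
  .add 0 74,
  .mul 14 0,
  .scale ⟨2199023255552, 0, 0, 0⟩ 19,
  .mul 5 16,
  .sub 1 0,
  .pos 0,
  .scale ⟨37927780352, 0, 0, 0⟩ 26,
  .scale ⟨179437568, 0, 0, 0⟩ 26,
  .add 1 0,
  .scale ⟨0, 813039616, 0, 0⟩ 27,
  .add 1 0,
  .scale ⟨54524704653312, 0, 0, 0⟩ 33,
  .add 1 0,
  .scale ⟨5420425281536, 0, 0, 0⟩ 30,
  .add 1 0,
  .const ⟨401463640064, 0, 0, 0⟩,
  .add 1 0,
  .pos 0,
  .const ⟨13813688565760, 0, 0, 0⟩,
  .add 62 0,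
  .pos 0,
  .const ⟨6408896512, 0, 0, 0⟩,
  .sub 94 0,
  .const ⟨8486855376896, 0, 0, 0⟩,
  .sub 85 0,
  .mul 0 0,
  .mul 0 1,
  .mul 4 2,
  .mul 85 85,
  .mul 0 0,
  .scale ⟨8796093022208, 0, 0, 0⟩ 90,
  .neg 0,
  .exp 0,
  .scale ⟨70158450688, 0, 0, 0⟩ 8,
  .scale ⟨5033295872, 0, 0, 0⟩ 8,
  .add 1 0,
  .scale ⟨0, 1112211456, 0, 0⟩ 9,
  .add 1 0,
  .scale ⟨117314786295808, 0, 0, 0⟩ 15,
  .add 1 0,
  .scale ⟨16374921887744, 0, 0, 0⟩ 12,
  .add 1 0,
  .const ⟨948813692928, 0, 0, 0⟩,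
  .add 1 0,
  .mul 116 87,
  .mul 0 1,
  .add 0 117,
  .mul 14 0,
  .scale ⟨1099511627776, 0, 0, 0⟩ 18,
  .add 0 120,
  .mul 21 0,
  .scale ⟨2199023255552, 0, 0, 0⟩ 0,
  .mul 8 19,
  .sub 1 0,
  .pos 0,
  .scale ⟨33484046336, 0, 0, 0⟩ 29,
  .scale ⟨0, 515571712, 0, 0⟩ 29,
  .add 1 0,
  .scale ⟨0, 956563456, 0, 0⟩ 30,
  .add 1 0,
  .scale ⟨48232673837056, 0, 0, 0⟩ 36,
  .add 1 0,
  .scale ⟨3734507356160, 0, 0, 0⟩ 33,
  .add 1 0,
  .const ⟨374782820352, 0, 0, 0⟩,
  .add 1 0,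
  .pos 0,
  .const ⟨14479408496640, 0, 0, 0⟩,
  .add 108 0,
  .pos 0,
  .const ⟨6408896512, 0, 0, 0⟩,
  .sub 140 0,
  .const ⟨8486855376896, 0, 0, 0⟩,
  .sub 131 0,
  .mul 0 0,
  .mul 0 1,
  .mul 4 2,
  .mul 131 131,
  .mul 0 0,
  .scale ⟨13194139533312, 0, 0, 0⟩ 136,
  .neg 0,
  .exp 0,
  .scale ⟨103642497024, 0, 0, 0⟩ 8,
  .scale ⟨4517724160, 0, 0, 0⟩ 8,
  .add 1 0,
  .scale ⟨0, 2068774912, 0, 0⟩ 9,
  .add 1 0,
  .scale ⟨165547460132864, 0, 0, 0⟩ 15,
  .add 1 0,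
  .scale ⟨20109429243904, 0, 0, 0⟩ 12,
  .add 1 0,
  .const ⟨1323596513280, 0, 0, 0⟩,
  .add 1 0,
  .mul 162 133,
  .mul 0 1,
  .add 0 163,
  .mul 14 0,
  .scale ⟨1099511627776, 0, 0, 0⟩ 18,
  .add 0 166,
  .mul 20 0,
  .add 0 168,
  .mul 23 0,
  .scale ⟨2199023255552, 0, 0, 0⟩ 0,
  .mul 10 21,
  .sub 1 0,
  .pos 0,
  .scale ⟨28109635584, 0, 0, 0⟩ 31,
  .scale ⟨0, 886439936, 0, 0⟩ 31,
  .add 1 0,
  .scale ⟨0, 1088749568, 0, 0⟩ 32,
  .add 1 0,
  .scale ⟨41270638346240, 0, 0, 0⟩ 38,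
  .add 1 0,
  .scale ⟨2345799188480, 0, 0, 0⟩ 35,
  .add 1 0,
  .const ⟨348923035648, 0, 0, 0⟩,
  .add 1 0,
  .pos 0,
  .const ⟨12625056366592, 0, 0, 0⟩,
  .add 156 0,
  .pos 0,
  .const ⟨6408896512, 0, 0, 0⟩,
  .sub 188 0,
  .const ⟨8486855376896, 0, 0, 0⟩,
  .sub 179 0,
  .mul 0 0,
  .mul 0 1,
  .mul 4 2,
  .mul 179 179,
  .mul 0 0,
  .scale ⟨17592186044416, 0, 0, 0⟩ 184,
  .neg 0,
  .exp 0,
  .scale ⟨131752132608, 0, 0, 0⟩ 8,
  .scale ⟨3631284224, 0, 0, 0⟩ 8,
  .add 1 0,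
  .scale ⟨0, 3157524480, 0, 0⟩ 9,
  .add 1 0,
  .scale ⟨206818098479104, 0, 0, 0⟩ 15,
  .add 1 0,
  .scale ⟨22455228432384, 0, 0, 0⟩ 12,
  .add 1 0,
  .const ⟨1672519548928, 0, 0, 0⟩,
  .add 1 0,
  .mul 210 181,
  .mul 0 1,
  .add 0 211,
  .mul 14 0,
  .scale ⟨1099511627776, 0, 0, 0⟩ 18,
  .add 0 214,
  .mul 20 0,
  .add 0 216,
  .mul 22 0,
  .add 0 218,
  .mul 25 0,
  .scale ⟨2199023255552, 0, 0, 0⟩ 0,
  .mul 12 23,
  .sub 1 0,
  .pos 0,
  .scale ⟨22889299968, 0, 0, 0⟩ 33,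
  .scale ⟨0, 1242234880, 0, 0⟩ 33,
  .add 1 0,
  .scale ⟨0, 1265303552, 0, 0⟩ 34,
  .add 1 0,
  .scale ⟨34456409538560, 0, 0, 0⟩ 40,
  .add 1 0,
  .scale ⟨940076040192, 0, 0, 0⟩ 37,
  .add 1 0,
  .const ⟨325252939776, 0, 0, 0⟩,
  .add 1 0,
  .pos 0,
  .const ⟨8228083597312, 0, 0, 0⟩,
  .add 206 0,
  .pos 0,
  .const ⟨6408896512, 0, 0, 0⟩,
  .sub 238 0,
  .const ⟨8486855376896, 0, 0, 0⟩,
  .sub 229 0,
  .mul 0 0,
  .mul 0 1,
  .mul 4 2,
  .mul 229 229,
  .mul 0 0,
  .scale ⟨21990232555520, 0, 0, 0⟩ 234,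
  .neg 0,
  .exp 0,
  .scale ⟨154641432576, 0, 0, 0⟩ 8,
  .scale ⟨2389049344, 0, 0, 0⟩ 8,
  .add 1 0,
  .scale ⟨0, 4422828032, 0, 0⟩ 9,
  .add 1 0,
  .scale ⟨241274508017664, 0, 0, 0⟩ 15,
  .add 1 0,
  .scale ⟨23395304472576, 0, 0, 0⟩ 12,
  .add 1 0,
  .const ⟨1997772488704, 0, 0, 0⟩,
  .add 1 0,
  .mul 260 231,
  .mul 0 1,
  .add 0 261,
  .mul 14 0,
  .scale ⟨1099511627776, 0, 0, 0⟩ 18,
  .add 0 264,
  .mul 20 0,
  .add 0 266,
  .mul 22 0,
  .add 0 268,
  .mul 24 0,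
  .add 0 270,
  .mul 27 0,
  .scale ⟨2199023255552, 0, 0, 0⟩ 0,
  .mul 14 25,
  .sub 1 0,
  .pos 0,
  .scale ⟨17672437760, 0, 0, 0⟩ 35,
  .scale ⟨0, 1379336192, 0, 0⟩ 35,
  .add 1 0,
  .scale ⟨0, 1440612352, 0, 0⟩ 36,
  .add 1 0,
  .scale ⟨27428691968000, 0, 0, 0⟩ 42,
  .add 1 0,
  .scale ⟨0, 365506330624, 0, 0⟩ 39,
  .add 1 0,
  .const ⟨297616080896, 0, 0, 0⟩,
  .add 1 0,
  .pos 0,
  .const ⟨1374389534720, 0, 0, 0⟩,
  .add 258 0,
  .pos 0,
  .const ⟨6408896512, 0, 0, 0⟩,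
  .sub 290 0,
  .const ⟨8486855376896, 0, 0, 0⟩,
  .sub 281 0,
  .mul 0 0,
  .mul 0 1,
  .mul 4 2,
  .mul 281 281,
  .mul 0 0,
  .scale ⟨26388279066624, 0, 0, 0⟩ 286,
  .neg 0,
  .exp 0,
  .scale ⟨172313870336, 0, 0, 0⟩ 8,
  .scale ⟨1009713152, 0, 0, 0⟩ 8,
  .add 1 0,
  .scale ⟨0, 5863440384, 0, 0⟩ 9,
  .add 1 0,
  .scale ⟨268703199985664, 0, 0, 0⟩ 15,
  .add 1 0,
  .scale ⟨23029798141952, 0, 0, 0⟩ 12,
  .add 1 0,
  .const ⟨2295388569600, 0, 0, 0⟩,
  .add 1 0,
  .mul 312 283,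
  .mul 0 1,
  .add 0 313,
  .mul 14 0,
  .scale ⟨1099511627776, 0, 0, 0⟩ 18,
  .add 0 316,
  .mul 20 0,
  .add 0 318,
  .mul 22 0,
  .add 0 320,
  .mul 24 0,
  .add 0 322,
  .mul 26 0,
  .add 0 324,
  .mul 29 0,
  .scale ⟨2199023255552, 0, 0, 0⟩ 0,
  .mul 16 27,
  .sub 1 0,
  .pos 0,
  .scale ⟨12996575232, 0, 0, 0⟩ 37,
  .scale ⟨0, 1547173888, 0, 0⟩ 37,
  .add 1 0,
  .scale ⟨0, 1567096832, 0, 0⟩ 38,
  .add 1 0,
  .scale ⟨20857305169920, 0, 0, 0⟩ 44,
  .add 1 0,
  .scale ⟨0, 1460251000832, 0, 0⟩ 41,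
  .add 1 0,
  .const ⟨270687338496, 0, 0, 0⟩,
  .add 1 0,
  .pos 0,
  .const ⟨0, 7729867390976, 0, 0⟩,
  .add 312 0,
  .pos 0,
  .const ⟨6408896512, 0, 0, 0⟩,
  .sub 344 0,
  .const ⟨8486855376896, 0, 0, 0⟩,
  .sub 335 0,
  .mul 0 0,
  .mul 0 1,
  .mul 4 2,
  .mul 335 335,
  .mul 0 0,
  .scale ⟨30786325577728, 0, 0, 0⟩ 340,
  .neg 0,
  .exp 0,
  .scale ⟨185310445568, 0, 0, 0⟩ 8,
  .scale ⟨0, 537460736, 0, 0⟩ 8,
  .add 1 0,
  .scale ⟨0, 7430537216, 0, 0⟩ 9,
  .add 1 0,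
  .scale ⟨289560505155584, 0, 0, 0⟩ 15,
  .add 1 0,
  .scale ⟨21569547141120, 0, 0, 0⟩ 12,
  .add 1 0,
  .const ⟨2566075908096, 0, 0, 0⟩,
  .add 1 0,
  .mul 366 337,
  .mul 0 1,
  .add 0 367,
  .mul 14 0,
  .scale ⟨1099511627776, 0, 0, 0⟩ 18,
  .add 0 370,
  .mul 20 0,
  .add 0 372,
  .mul 22 0,
  .add 0 374,
  .mul 24 0,
  .add 0 376,
  .mul 26 0,
  .add 0 378,
  .mul 28 0,
  .add 0 380,
  .mul 31 0,
  .scale ⟨2199023255552, 0, 0, 0⟩ 0,
  .mul 18 29,
  .sub 1 0,
  .pos 0,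
  .mul 386 357,
  .mul 0 21,
  .add 0 387,
  .scale ⟨13414040600576, 0, 0, 0⟩ 377,
  .neg 0,
  .exp 0,
  .mul 3 0,
  .lt 0 1099511627520]

set_option maxRecDepth 1000000 in
noncomputable def c_S_0 {α : Type} (cst : Z → α) (add sub mul : α → α → α) (scale : Z → α → α)
    (neg inv exp log : α → α) (ok : α → Bool) (isPos : Nat → α → Bool) (isLt : α → Nat → Bool)
    (ball : Nat → α → α) (rball : α → α → α) : List α → Bool
  | [x0, x1] =>
  let v0 := cst ⟨1099511627776, 0, 0, 0⟩; ok v0 && (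
  let v1 := scale ⟨2251799813685248, 0, 0, 0⟩ x0; ok v1 && (
  let v2 := scale ⟨46151436861440, 0, 0, 0⟩ v1; ok v2 && (
  let v3 := cst ⟨0, 1836253137862656, 0, 0⟩; ok v3 && (
  let v4 := add v2 v3; ok v4 && (
  let v5 := mul v4 x0; ok v5 && (
  let v6 := cst ⟨8251702771712, 0, 0, 0⟩; ok v6 && (
  let v7 := add v5 v6; ok v7 && (
  let v8 := mul x1 v7; ok v8 && (
  let v9 := cst ⟨8108898254848, 0, 0, 0⟩; ok v9 && (
  let v10 := add v8 v9; ok v10 && (
  let v11 := mul x0 v10; ok v11 && (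
  let v12 := exp v11; ok v12 && (
  let v13 := neg v11; ok v13 && (
  let v14 := exp v13; ok v14 && (
  let v15 := mul v11 v11; ok v15 && (
  isLt v15 68719476736 && (
  let v16 := scale ⟨9162596898, 0, 0, 0⟩ v15; ok v16 && (
  let v17 := cst ⟨183251937962, 0, 0, 0⟩; ok v17 && (
  let v18 := add v16 v17; ok v18 && (
  let v19 := mul v18 v15; ok v19 && (
  let v20 := cst ⟨1099511627776, 0, 0, 0⟩; ok v20 && (
  let v21 := add v19 v20; ok v21 && (
  let v22 := cst ⟨65536, 0, 0, 0⟩; ok v22 && (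
  let v23 := rball v21 v22; ok v23 && (
  let v24 := scale ⟨2199023255552, 0, 0, 0⟩ v10; ok v24 && (
  let v25 := mul v24 v23; ok v25 && (
  let v26 := add v12 v14; ok v26 && (
  let v27 := scale ⟨549755813888, 0, 0, 0⟩ v26; ok v27 && (
  let v28 := mul v25 v27; ok v28 && (
  let v29 := mul v28 v28; ok v29 && (
  let v30 := cst ⟨6408896512, 0, 0, 0⟩; ok v30 && (
  let v31 := sub x0 v30; ok v31 && (
  let v32 := cst ⟨8486855376896, 0, 0, 0⟩; ok v32 && (
  let v33 := sub v10 v32; ok v33 && (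
  let v34 := mul v33 v33; ok v34 && (
  let v35 := mul v34 v33; ok v35 && (
  let v36 := mul v31 v33; ok v36 && (
  let v37 := scale ⟨32230670336, 0, 0, 0⟩ v33; ok v37 && (
  let v38 := scale ⟨4853858304, 0, 0, 0⟩ v34; ok v38 && (
  let v39 := add v37 v38; ok v39 && (
  let v40 := scale ⟨0, 299171840, 0, 0⟩ v35; ok v40 && (
  let v41 := add v39 v40; ok v41 && (
  let v42 := scale ⟨62790081642496, 0, 0, 0⟩ v31; ok v42 && (
  let v43 := add v41 v42; ok v43 && (
  let v44 := scale ⟨10954496606208, 0, 0, 0⟩ v36; ok v44 && (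
  let v45 := add v43 v44; ok v45 && (
  let v46 := cst ⟨547350052864, 0, 0, 0⟩; ok v46 && (
  let v47 := add v45 v46; ok v47 && (
  isPos 2 v47 && (
  let v48 := cst ⟨10769630494720, 0, 0, 0⟩; ok v48 && (
  let v49 := add v29 v48; ok v49 && (
  isPos 2 v49 && (
  let v50 := cst ⟨6408896512, 0, 0, 0⟩; ok v50 && (
  let v51 := sub x0 v50; ok v51 && (
  let v52 := cst ⟨8486855376896, 0, 0, 0⟩; ok v52 && (
  let v53 := sub v10 v52; ok v53 && (
  let v54 := mul v53 v53; ok v54 && (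
  let v55 := mul v54 v53; ok v55 && (
  let v56 := mul v51 v53; ok v56 && (
  let v57 := mul v14 v14; ok v57 && (
  let v58 := mul v57 v57; ok v58 && (
  let v59 := scale ⟨4398046511104, 0, 0, 0⟩ v11; ok v59 && (
  let v60 := neg v59; ok v60 && (
  let v61 := exp v60; ok v61 && (
  let v62 := scale ⟨32230670336, 0, 0, 0⟩ v53; ok v62 && (
  let v63 := scale ⟨4853858304, 0, 0, 0⟩ v54; ok v63 && (
  let v64 := add v62 v63; ok v64 && (
  let v65 := scale ⟨0, 299171840, 0, 0⟩ v55; ok v65 && (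
  let v66 := add v64 v65; ok v66 && (
  let v67 := scale ⟨62790081642496, 0, 0, 0⟩ v51; ok v67 && (
  let v68 := add v66 v67; ok v68 && (
  let v69 := scale ⟨10954496606208, 0, 0, 0⟩ v56; ok v69 && (
  let v70 := add v68 v69; ok v70 && (
  let v71 := cst ⟨547350052864, 0, 0, 0⟩; ok v71 && (
  let v72 := add v70 v71; ok v72 && (
  let v73 := mul x0 v28; ok v73 && (
  let v74 := mul v73 v72; ok v74 && (
  let v75 := add v74 v0; ok v75 && (
  let v76 := mul v61 v75; ok v76 && (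
  let v77 := scale ⟨2199023255552, 0, 0, 0⟩ v57; ok v77 && (
  let v78 := mul v72 v61; ok v78 && (
  let v79 := sub v77 v78; ok v79 && (
  isPos 2 v79 && (
  let v80 := scale ⟨37927780352, 0, 0, 0⟩ v53; ok v80 && (
  let v81 := scale ⟨179437568, 0, 0, 0⟩ v54; ok v81 && (
  let v82 := add v80 v81; ok v82 && (
  let v83 := scale ⟨0, 813039616, 0, 0⟩ v55; ok v83 && (
  let v84 := add v82 v83; ok v84 && (
  let v85 := scale ⟨54524704653312, 0, 0, 0⟩ v51; ok v85 && (
  let v86 := add v84 v85; ok v86 && (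
  let v87 := scale ⟨5420425281536, 0, 0, 0⟩ v56; ok v87 && (
  let v88 := add v86 v87; ok v88 && (
  let v89 := cst ⟨401463640064, 0, 0, 0⟩; ok v89 && (
  let v90 := add v88 v89; ok v90 && (
  isPos 2 v90 && (
  let v91 := cst ⟨13813688565760, 0, 0, 0⟩; ok v91 && (
  let v92 := add v29 v91; ok v92 && (
  isPos 2 v92 && (
  let v93 := cst ⟨6408896512, 0, 0, 0⟩; ok v93 && (
  let v94 := sub x0 v93; ok v94 && (
  let v95 := cst ⟨8486855376896, 0, 0, 0⟩; ok v95 && (
  let v96 := sub v10 v95; ok v96 && (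
  let v97 := mul v96 v96; ok v97 && (
  let v98 := mul v97 v96; ok v98 && (
  let v99 := mul v94 v96; ok v99 && (
  let v100 := mul v14 v14; ok v100 && (
  let v101 := mul v100 v100; ok v101 && (
  let v102 := scale ⟨8796093022208, 0, 0, 0⟩ v11; ok v102 && (
  let v103 := neg v102; ok v103 && (
  let v104 := exp v103; ok v104 && (
  let v105 := scale ⟨70158450688, 0, 0, 0⟩ v96; ok v105 && (
  let v106 := scale ⟨5033295872, 0, 0, 0⟩ v97; ok v106 && (
  let v107 := add v105 v106; ok v107 && (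
  let v108 := scale ⟨0, 1112211456, 0, 0⟩ v98; ok v108 && (
  let v109 := add v107 v108; ok v109 && (
  let v110 := scale ⟨117314786295808, 0, 0, 0⟩ v94; ok v110 && (
  let v111 := add v109 v110; ok v111 && (
  let v112 := scale ⟨16374921887744, 0, 0, 0⟩ v99; ok v112 && (
  let v113 := add v111 v112; ok v113 && (
  let v114 := cst ⟨948813692928, 0, 0, 0⟩; ok v114 && (
  let v115 := add v113 v114; ok v115 && (
  let v116 := mul x0 v28; ok v116 && (
  let v117 := mul v116 v115; ok v117 && (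
  let v118 := add v117 v0; ok v118 && (
  let v119 := mul v104 v118; ok v119 && (
  let v120 := scale ⟨1099511627776, 0, 0, 0⟩ v101; ok v120 && (
  let v121 := add v120 v0; ok v121 && (
  let v122 := mul v100 v121; ok v122 && (
  let v123 := scale ⟨2199023255552, 0, 0, 0⟩ v122; ok v123 && (
  let v124 := mul v115 v104; ok v124 && (
  let v125 := sub v123 v124; ok v125 && (
  isPos 2 v125 && (
  let v126 := scale ⟨33484046336, 0, 0, 0⟩ v96; ok v126 && (
  let v127 := scale ⟨0, 515571712, 0, 0⟩ v97; ok v127 && (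
  let v128 := add v126 v127; ok v128 && (
  let v129 := scale ⟨0, 956563456, 0, 0⟩ v98; ok v129 && (
  let v130 := add v128 v129; ok v130 && (
  let v131 := scale ⟨48232673837056, 0, 0, 0⟩ v94; ok v131 && (
  let v132 := add v130 v131; ok v132 && (
  let v133 := scale ⟨3734507356160, 0, 0, 0⟩ v99; ok v133 && (
  let v134 := add v132 v133; ok v134 && (
  let v135 := cst ⟨374782820352, 0, 0, 0⟩; ok v135 && (
  let v136 := add v134 v135; ok v136 && (
  isPos 2 v136 && (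
  let v137 := cst ⟨14479408496640, 0, 0, 0⟩; ok v137 && (
  let v138 := add v29 v137; ok v138 && (
  isPos 2 v138 && (
  let v139 := cst ⟨6408896512, 0, 0, 0⟩; ok v139 && (
  let v140 := sub x0 v139; ok v140 && (
  let v141 := cst ⟨8486855376896, 0, 0, 0⟩; ok v141 && (
  let v142 := sub v10 v141; ok v142 && (
  let v143 := mul v142 v142; ok v143 && (
  let v144 := mul v143 v142; ok v144 && (
  let v145 := mul v140 v142; ok v145 && (
  let v146 := mul v14 v14; ok v146 && (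
  let v147 := mul v146 v146; ok v147 && (
  let v148 := scale ⟨13194139533312, 0, 0, 0⟩ v11; ok v148 && (
  let v149 := neg v148; ok v149 && (
  let v150 := exp v149; ok v150 && (
  let v151 := scale ⟨103642497024, 0, 0, 0⟩ v142; ok v151 && (
  let v152 := scale ⟨4517724160, 0, 0, 0⟩ v143; ok v152 && (
  let v153 := add v151 v152; ok v153 && (
  let v154 := scale ⟨0, 2068774912, 0, 0⟩ v144; ok v154 && (
  let v155 := add v153 v154; ok v155 && (
  let v156 := scale ⟨165547460132864, 0, 0, 0⟩ v140; ok v156 && (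
  let v157 := add v155 v156; ok v157 && (
  let v158 := scale ⟨20109429243904, 0, 0, 0⟩ v145; ok v158 && (
  let v159 := add v157 v158; ok v159 && (
  let v160 := cst ⟨1323596513280, 0, 0, 0⟩; ok v160 && (
  let v161 := add v159 v160; ok v161 && (
  let v162 := mul x0 v28; ok v162 && (
  let v163 := mul v162 v161; ok v163 && (
  let v164 := add v163 v0; ok v164 && (
  let v165 := mul v150 v164; ok v165 && (
  let v166 := scale ⟨1099511627776, 0, 0, 0⟩ v147; ok v166 && (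
  let v167 := add v166 v0; ok v167 && (
  let v168 := mul v147 v167; ok v168 && (
  let v169 := add v168 v0; ok v169 && (
  let v170 := mul v146 v169; ok v170 && (
  let v171 := scale ⟨2199023255552, 0, 0, 0⟩ v170; ok v171 && (
  let v172 := mul v161 v150; ok v172 && (
  let v173 := sub v171 v172; ok v173 && (
  isPos 2 v173 && (
  let v174 := scale ⟨28109635584, 0, 0, 0⟩ v142; ok v174 && (
  let v175 := scale ⟨0, 886439936, 0, 0⟩ v143; ok v175 && (
  let v176 := add v174 v175; ok v176 && (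
  let v177 := scale ⟨0, 1088749568, 0, 0⟩ v144; ok v177 && (
  let v178 := add v176 v177; ok v178 && (
  let v179 := scale ⟨41270638346240, 0, 0, 0⟩ v140; ok v179 && (
  let v180 := add v178 v179; ok v180 && (
  let v181 := scale ⟨2345799188480, 0, 0, 0⟩ v145; ok v181 && (
  let v182 := add v180 v181; ok v182 && (
  let v183 := cst ⟨348923035648, 0, 0, 0⟩; ok v183 && (
  let v184 := add v182 v183; ok v184 && (
  isPos 2 v184 && (
  let v185 := cst ⟨12625056366592, 0, 0, 0⟩; ok v185 && (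
  let v186 := add v29 v185; ok v186 && (
  isPos 2 v186 && (
  let v187 := cst ⟨6408896512, 0, 0, 0⟩; ok v187 && (
  let v188 := sub x0 v187; ok v188 && (
  let v189 := cst ⟨8486855376896, 0, 0, 0⟩; ok v189 && (
  let v190 := sub v10 v189; ok v190 && (
  let v191 := mul v190 v190; ok v191 && (
  let v192 := mul v191 v190; ok v192 && (
  let v193 := mul v188 v190; ok v193 && (
  let v194 := mul v14 v14; ok v194 && (
  let v195 := mul v194 v194; ok v195 && (
  let v196 := scale ⟨17592186044416, 0, 0, 0⟩ v11; ok v196 && (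
  let v197 := neg v196; ok v197 && (
  let v198 := exp v197; ok v198 && (
  let v199 := scale ⟨131752132608, 0, 0, 0⟩ v190; ok v199 && (
  let v200 := scale ⟨3631284224, 0, 0, 0⟩ v191; ok v200 && (
  let v201 := add v199 v200; ok v201 && (
  let v202 := scale ⟨0, 3157524480, 0, 0⟩ v192; ok v202 && (
  let v203 := add v201 v202; ok v203 && (
  let v204 := scale ⟨206818098479104, 0, 0, 0⟩ v188; ok v204 && (
  let v205 := add v203 v204; ok v205 && (
  let v206 := scale ⟨22455228432384, 0, 0, 0⟩ v193; ok v206 && (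
  let v207 := add v205 v206; ok v207 && (
  let v208 := cst ⟨1672519548928, 0, 0, 0⟩; ok v208 && (
  let v209 := add v207 v208; ok v209 && (
  let v210 := mul x0 v28; ok v210 && (
  let v211 := mul v210 v209; ok v211 && (
  let v212 := add v211 v0; ok v212 && (
  let v213 := mul v198 v212; ok v213 && (
  let v214 := scale ⟨1099511627776, 0, 0, 0⟩ v195; ok v214 && (
  let v215 := add v214 v0; ok v215 && (
  let v216 := mul v195 v215; ok v216 && (
  let v217 := add v216 v0; ok v217 && (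
  let v218 := mul v195 v217; ok v218 && (
  let v219 := add v218 v0; ok v219 && (
  let v220 := mul v194 v219; ok v220 && (
  let v221 := scale ⟨2199023255552, 0, 0, 0⟩ v220; ok v221 && (
  let v222 := mul v209 v198; ok v222 && (
  let v223 := sub v221 v222; ok v223 && (
  isPos 2 v223 && (
  let v224 := scale ⟨22889299968, 0, 0, 0⟩ v190; ok v224 && (
  let v225 := scale ⟨0, 1242234880, 0, 0⟩ v191; ok v225 && (
  let v226 := add v224 v225; ok v226 && (
  let v227 := scale ⟨0, 1265303552, 0, 0⟩ v192; ok v227 && (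
  let v228 := add v226 v227; ok v228 && (
  let v229 := scale ⟨34456409538560, 0, 0, 0⟩ v188; ok v229 && (
  let v230 := add v228 v229; ok v230 && (
  let v231 := scale ⟨940076040192, 0, 0, 0⟩ v193; ok v231 && (
  let v232 := add v230 v231; ok v232 && (
  let v233 := cst ⟨325252939776, 0, 0, 0⟩; ok v233 && (
  let v234 := add v232 v233; ok v234 && (
  isPos 2 v234 && (
  let v235 := cst ⟨8228083597312, 0, 0, 0⟩; ok v235 && (
  let v236 := add v29 v235; ok v236 && (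
  isPos 2 v236 && (
  let v237 := cst ⟨6408896512, 0, 0, 0⟩; ok v237 && (
  let v238 := sub x0 v237; ok v238 && (
  let v239 := cst ⟨8486855376896, 0, 0, 0⟩; ok v239 && (
  let v240 := sub v10 v239; ok v240 && (
  let v241 := mul v240 v240; ok v241 && (
  let v242 := mul v241 v240; ok v242 && (
  let v243 := mul v238 v240; ok v243 && (
  let v244 := mul v14 v14; ok v244 && (
  let v245 := mul v244 v244; ok v245 && (
  let v246 := scale ⟨21990232555520, 0, 0, 0⟩ v11; ok v246 && (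
  let v247 := neg v246; ok v247 && (
  let v248 := exp v247; ok v248 && (
  let v249 := scale ⟨154641432576, 0, 0, 0⟩ v240; ok v249 && (
  let v250 := scale ⟨2389049344, 0, 0, 0⟩ v241; ok v250 && (
  let v251 := add v249 v250; ok v251 && (
  let v252 := scale ⟨0, 4422828032, 0, 0⟩ v242; ok v252 && (
  let v253 := add v251 v252; ok v253 && (
  let v254 := scale ⟨241274508017664, 0, 0, 0⟩ v238; ok v254 && (
  let v255 := add v253 v254; ok v255 && (
  let v256 := scale ⟨23395304472576, 0, 0, 0⟩ v243; ok v256 && (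
  let v257 := add v255 v256; ok v257 && (
  let v258 := cst ⟨1997772488704, 0, 0, 0⟩; ok v258 && (
  let v259 := add v257 v258; ok v259 && (
  let v260 := mul x0 v28; ok v260 && (
  let v261 := mul v260 v259; ok v261 && (
  let v262 := add v261 v0; ok v262 && (
  let v263 := mul v248 v262; ok v263 && (
  let v264 := scale ⟨1099511627776, 0, 0, 0⟩ v245; ok v264 && (
  let v265 := add v264 v0; ok v265 && (
  let v266 := mul v245 v265; ok v266 && (
  let v267 := add v266 v0; ok v267 && (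
  let v268 := mul v245 v267; ok v268 && (
  let v269 := add v268 v0; ok v269 && (
  let v270 := mul v245 v269; ok v270 && (
  let v271 := add v270 v0; ok v271 && (
  let v272 := mul v244 v271; ok v272 && (
  let v273 := scale ⟨2199023255552, 0, 0, 0⟩ v272; ok v273 && (
  let v274 := mul v259 v248; ok v274 && (
  let v275 := sub v273 v274; ok v275 && (
  isPos 2 v275 && (
  let v276 := scale ⟨17672437760, 0, 0, 0⟩ v240; ok v276 && (
  let v277 := scale ⟨0, 1379336192, 0, 0⟩ v241; ok v277 && (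
  let v278 := add v276 v277; ok v278 && (
  let v279 := scale ⟨0, 1440612352, 0, 0⟩ v242; ok v279 && (
  let v280 := add v278 v279; ok v280 && (
  let v281 := scale ⟨27428691968000, 0, 0, 0⟩ v238; ok v281 && (
  let v282 := add v280 v281; ok v282 && (
  let v283 := scale ⟨0, 365506330624, 0, 0⟩ v243; ok v283 && (
  let v284 := add v282 v283; ok v284 && (
  let v285 := cst ⟨297616080896, 0, 0, 0⟩; ok v285 && (
  let v286 := add v284 v285; ok v286 && (
  isPos 2 v286 && (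
  let v287 := cst ⟨1374389534720, 0, 0, 0⟩; ok v287 && (
  let v288 := add v29 v287; ok v288 && (
  isPos 2 v288 && (
  let v289 := cst ⟨6408896512, 0, 0, 0⟩; ok v289 && (
  let v290 := sub x0 v289; ok v290 && (
  let v291 := cst ⟨8486855376896, 0, 0, 0⟩; ok v291 && (
  let v292 := sub v10 v291; ok v292 && (
  let v293 := mul v292 v292; ok v293 && (
  let v294 := mul v293 v292; ok v294 && (
  let v295 := mul v290 v292; ok v295 && (
  let v296 := mul v14 v14; ok v296 && (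
  let v297 := mul v296 v296; ok v297 && (
  let v298 := scale ⟨26388279066624, 0, 0, 0⟩ v11; ok v298 && (
  let v299 := neg v298; ok v299 && (
  let v300 := exp v299; ok v300 && (
  let v301 := scale ⟨172313870336, 0, 0, 0⟩ v292; ok v301 && (
  let v302 := scale ⟨1009713152, 0, 0, 0⟩ v293; ok v302 && (
  let v303 := add v301 v302; ok v303 && (
  let v304 := scale ⟨0, 5863440384, 0, 0⟩ v294; ok v304 && (
  let v305 := add v303 v304; ok v305 && (
  let v306 := scale ⟨268703199985664, 0, 0, 0⟩ v290; ok v306 && (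
  let v307 := add v305 v306; ok v307 && (
  let v308 := scale ⟨23029798141952, 0, 0, 0⟩ v295; ok v308 && (
  let v309 := add v307 v308; ok v309 && (
  let v310 := cst ⟨2295388569600, 0, 0, 0⟩; ok v310 && (
  let v311 := add v309 v310; ok v311 && (
  let v312 := mul x0 v28; ok v312 && (
  let v313 := mul v312 v311; ok v313 && (
  let v314 := add v313 v0; ok v314 && (
  let v315 := mul v300 v314; ok v315 && (
  let v316 := scale ⟨1099511627776, 0, 0, 0⟩ v297; ok v316 && (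
  let v317 := add v316 v0; ok v317 && (
  let v318 := mul v297 v317; ok v318 && (
  let v319 := add v318 v0; ok v319 && (
  let v320 := mul v297 v319; ok v320 && (
  let v321 := add v320 v0; ok v321 && (
  let v322 := mul v297 v321; ok v322 && (
  let v323 := add v322 v0; ok v323 && (
  let v324 := mul v297 v323; ok v324 && (
  let v325 := add v324 v0; ok v325 && (
  let v326 := mul v296 v325; ok v326 && (
  let v327 := scale ⟨2199023255552, 0, 0, 0⟩ v326; ok v327 && (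
  let v328 := mul v311 v300; ok v328 && (
  let v329 := sub v327 v328; ok v329 && (
  isPos 2 v329 && (
  let v330 := scale ⟨12996575232, 0, 0, 0⟩ v292; ok v330 && (
  let v331 := scale ⟨0, 1547173888, 0, 0⟩ v293; ok v331 && (
  let v332 := add v330 v331; ok v332 && (
  let v333 := scale ⟨0, 1567096832, 0, 0⟩ v294; ok v333 && (
  let v334 := add v332 v333; ok v334 && (
  let v335 := scale ⟨20857305169920, 0, 0, 0⟩ v290; ok v335 && (
  let v336 := add v334 v335; ok v336 && (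
  let v337 := scale ⟨0, 1460251000832, 0, 0⟩ v295; ok v337 && (
  let v338 := add v336 v337; ok v338 && (
  let v339 := cst ⟨270687338496, 0, 0, 0⟩; ok v339 && (
  let v340 := add v338 v339; ok v340 && (
  isPos 2 v340 && (
  let v341 := cst ⟨0, 7729867390976, 0, 0⟩; ok v341 && (
  let v342 := add v29 v341; ok v342 && (
  isPos 2 v342 && (
  let v343 := cst ⟨6408896512, 0, 0, 0⟩; ok v343 && (
  let v344 := sub x0 v343; ok v344 && (
  let v345 := cst ⟨8486855376896, 0, 0, 0⟩; ok v345 && (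
  let v346 := sub v10 v345; ok v346 && (
  let v347 := mul v346 v346; ok v347 && (
  let v348 := mul v347 v346; ok v348 && (
  let v349 := mul v344 v346; ok v349 && (
  let v350 := mul v14 v14; ok v350 && (
  let v351 := mul v350 v350; ok v351 && (
  let v352 := scale ⟨30786325577728, 0, 0, 0⟩ v11; ok v352 && (
  let v353 := neg v352; ok v353 && (
  let v354 := exp v353; ok v354 && (
  let v355 := scale ⟨185310445568, 0, 0, 0⟩ v346; ok v355 && (
  let v356 := scale ⟨0, 537460736, 0, 0⟩ v347; ok v356 && (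
  let v357 := add v355 v356; ok v357 && (
  let v358 := scale ⟨0, 7430537216, 0, 0⟩ v348; ok v358 && (
  let v359 := add v357 v358; ok v359 && (
  let v360 := scale ⟨289560505155584, 0, 0, 0⟩ v344; ok v360 && (
  let v361 := add v359 v360; ok v361 && (
  let v362 := scale ⟨21569547141120, 0, 0, 0⟩ v349; ok v362 && (
  let v363 := add v361 v362; ok v363 && (
  let v364 := cst ⟨2566075908096, 0, 0, 0⟩; ok v364 && (
  let v365 := add v363 v364; ok v365 && (
  let v366 := mul x0 v28; ok v366 && (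
  let v367 := mul v366 v365; ok v367 && (
  let v368 := add v367 v0; ok v368 && (
  let v369 := mul v354 v368; ok v369 && (
  let v370 := scale ⟨1099511627776, 0, 0, 0⟩ v351; ok v370 && (
  let v371 := add v370 v0; ok v371 && (
  let v372 := mul v351 v371; ok v372 && (
  let v373 := add v372 v0; ok v373 && (
  let v374 := mul v351 v373; ok v374 && (
  let v375 := add v374 v0; ok v375 && (
  let v376 := mul v351 v375; ok v376 && (
  let v377 := add v376 v0; ok v377 && (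
  let v378 := mul v351 v377; ok v378 && (
  let v379 := add v378 v0; ok v379 && (
  let v380 := mul v351 v379; ok v380 && (
  let v381 := add v380 v0; ok v381 && (
  let v382 := mul v350 v381; ok v382 && (
  let v383 := scale ⟨2199023255552, 0, 0, 0⟩ v382; ok v383 && (
  let v384 := mul v365 v354; ok v384 && (
  let v385 := sub v383 v384; ok v385 && (
  isPos 2 v385 && (
  let v386 := mul x0 v28; ok v386 && (
  let v387 := mul v386 v365; ok v387 && (
  let v388 := add v387 v0; ok v388 && (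
  let v389 := scale ⟨13414040600576, 0, 0, 0⟩ v11; ok v389 && (
  let v390 := neg v389; ok v390 && (
  let v391 := exp v390; ok v391 && (
  let v392 := mul v388 v391; ok v392 && (
  isLt v392 1099511627520 && (
  true))))))))))))))))))))))))))))))))))))))))))))))))))))))))))))))))))))))))))))))))))))))))))))))))))))))))))))))))))))))))))))))))))))))))))))))))))))))))))))))))))))))))))))))))))))))))))))))))))))))))))))))))))))))))))))))))))))))))))))))))))))))))))))))))))))))))))))))))))))))))))))))))))))))))))))))))))))))))))))))))))))))))))))))))))))))))))))))))))))))))))))))))))))))))))))))))))))))))))))))))))))))))))))))))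
  | _ => false

set_option maxRecDepth 1000000 in
theorem c_S_0_eq (X : XOps) (m : List X.O.α)
    (h : c_S_0 X.O.cst X.O.add X.O.sub X.O.mul X.O.scale X.O.neg X.O.inv X.O.exp X.O.log X.O.ok
      X.O.isPos X.O.isLt X.ball X.rball m = true) :
    runX X 2 p_S_0 m = true := by
  match m, h with
  | [x0, x1], h => exact h

abbrev gS : List (List Op) := [p_S_0]

noncomputable abbrev kS : List (List xE.O.α → Bool) := [c_S_0 xE.O.cst xE.O.add xE.O.sub xE.O.mul xE.O.scale xE.O.neg xE.O.inv xE.O.exp xE.O.log xE.O.ok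
      xE.O.isPos xE.O.isLt xE.ball xE.rball]

theorem kS_eq : List.Forall₂ (fun (ops : List Op) (chk : List xE.O.α → Bool) =>
    ∀ m, chk m = true → runX xE 2 ops m = true) gS kS :=
  List.Forall₂.cons (c_S_0_eq xE) List.Forall₂.nil

theorem gS_eq : gS = [PSS tab 7] := by decide +kernel

end Pool.Agent.helper14.NS.Q150h
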