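import Pool.Agent.helper14.NS.Cert

/-!
Generated: table Q150h.
-/

namespace Pool.Agent.helper14.NS.Q150h

open Pool.Agent.helper63.NF Pool.Agent.helper4.NS

def tab : TD where
  strip := false
  bm := some (94518142692229120, -1836253137862656, 8251702771712, 8108898254848)
  ec := 6408896512
  bc := 8486855376896
  H := [[[12282965440, -1241182400, 33418368, -3182592], [547843464512, 96927064576], [10250352363456]], [[-581497600, 48008448, -769152], [-9724673024]], [[15926720, -608960], [-261612032]], [[-278144]], [[1984]]]
  pol := some ⟨-3740379643904, -320851236880384, 5872294035456, 31362867265536, [[-125416087424, 23192718464], [-3990710828928, 0]], [[282862252928, -83055982336], [14145812554816, 0]]⟩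
  a := [[[54975594496, 0, 0, 0], [0, 0]], [[8796110848, 0, 0, 0], [0, 0]], [[8796110848, 0, 0, 0], [0, 0]], [[8796110848, 0, 0, 0], [0, 0]], [[8796110848, 0, 0, 0], [0, 0]], [[8796110848, 0, 0, 0], [0, 0]], [[8796110848, 0, 0, 0], [0, 0]]]
  j := [0, 2199023255552, 4398046511104, 6597069766656, 8796093022208, 10995116277760, 13194139533312]
  c := [549755813888, 329907175424, 219848638464, 164819369984, 110058536960, 110058536960, 110058536960]
  M := [[[[1113994559488, 4633264128, 43384832], [5415904215040, 1093019303936], [366726176178176]], [[24759238656, -1321336832], [3024046850048]], [[4439539712, 536215552], [1219543171072]], [[6379929600]], [[1268711424]], [[2066284544]]], [[[1112487493632, 2668625920, -553910272], [3834396999680]], [[3149398016, 13369344], [565379203072]], [[4325376]], [[-65536]]], [[[1112094212096, 2715418624, -579141632], [3874098053120]], [[3206348800, 9830400], [561269768192]], [[1835008]], [[-65536]]], [[[1111960584192, 2628714496, -487653376], [3930807205888]], [[3231580160, 9306112], [557582647296]], [[524288]], [[0]]], [[[1111920803840, 2569863168, -443088896], [3992783290368]], [[3237150720, 9764864], [554910810112]], [[262144]], [[0]]], [[[1111896227840,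 2568355840, -449052672], [4029529587712]], [[3240886272, 9568256], [553445031936]], [[65536]], [[0]]], [[[1111866671104, 2576744448, -482279424], [4051512066048]], [[3245604864, 9568256], [552573796352]], [[-131072]], [[0]]]]
  l0 := [[[3692141056960, -156387150272, -10022283712, 5553115456, 6001968896], [-112759486939200, -17077069699392]], [[1155342085120, 166316172992, 4545929728, -9365605248], [90761655305728, 20358049691520]], [[989425754496, -97850629248, 3519837952, 20721881792], [-65524498647360]], [[298861408256, 74284471488, -25918400256], [3986098133376]], [[234513246464, -54681183616]], [[-19981245440, 98350321600]], [[96245984640]], [[-106530011456]]]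
  q0 := [[256967838848, 39949428096, -690203712, 157076160, -1857194816, 1409079296], [46524960144512, 4826699025664, 96093992064], [-712856660625152]]
  t := [[[547350052864, 32230670336, 4853858304, -299171840], [62790081642496, 10954496606208]], [[401463640064, 37927780352, 179437568, -813039616], [54524704653312, 5420425281536]], [[374782820352, 33484046336, -515571712, -956563456], [48232673837056, 3734507356160]], [[348923035648, 28109635584, -886439936, -1088749568], [41270638346240, 2345799188480]], [[325252939776, 22889299968, -1242234880, -1265303552], [34456409538560, 940076040192]], [[297616080896, 17672437760, -1379336192, -1440612352], [27428691968000, -365506330624]], [[270687338496, 12996575232, -1547173888, -1567096832], [20857305169920, -1460251000832]]]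
  y := [10769630494720, 13813688565760, 14479408496640, 12625056366592, 8228083597312, 1374389534720, -7729867390976]
  sc := [0, 0, 0, 0, 0, 0, 0]
  L := [(0, 2), (0, 3), (0, 4), (0, 5), (1, 1), (1, 2), (2, 0)]
  Lt := [(0, 2), (0, 3), (1, 1)]
  far := 4
  x2 := 10885165744128
  B1 := 1979120091136
  C2 := 1708879162368
  f1 := 0
  f2 := 0
  f3 := 0
  is1 := 8796093022208
  s1 := 137438953472

end Pool.Agent.helper14.NS.Q150h
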